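import Pool.Agent.N102.CF.Stm

/-!
# Circle factors: elementary facts
-/

set_option autoImplicit false
set_option linter.unusedSectionVars false

open scoped Manifold ContDiff Topology
open Filter Set Metric

universe u

namespace Pool.Agent.N102.CF

open Pool.Agent.H718R2.G Pool.Agent.W564.SC Pool.Agent.TH290.CL Pool.Agent.TH80.CLX

variable {n : ℕ} {N : Type u} [TopologicalSpace N] [ChartedSpace (V n) N]
  {F : N → N} {O K : Set N} {A : ℝ → N → N} {a : N → ℂ} {G : ℝ → ℝ} {e : ℕ}

theorem Clock.int_apply (h : Clock n N F O K A a G e) (k : ℤ) : ∀ y ∈ O, A k y = y := by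
  have hn : ∀ m : ℕ, ∀ y ∈ O, A m y = y := by
    intro m
    induction m with
    | zero =>
      intro y hy
      rw [Nat.cast_zero]
      exact h.flow.zero y hy
    | succ m ih =>
      intro y hy
      rw [Nat.cast_succ, h.flow.add _ _ y hy, h.per y hy, ih y hy]
  intro y hy
  obtain ⟨m, rfl | rfl⟩ := Int.eq_nat_or_neg k
  · exact_mod_cast hn m y hy
  · have h1 := h.flow.add (((-(m : ℤ) : ℤ)) : ℝ) (m : ℝ) y hy
    rw [hn m y hy] at h1
    rw [← h1]
    push_cast
    rw [neg_add_cancel, h.flow.zero y hy]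

theorem Clock.fract_apply (h : Clock n N F O K A a G e) (t : ℝ) (y : N) (hy : y ∈ O) :
    A (Int.fract t) y = A t y := by
  have h1 : t = Int.fract t + (⌊t⌋ : ℤ) := (Int.fract_add_floor t).symm
  conv_rhs => rw [h1]
  rw [h.flow.add _ _ y hy, h.int_apply _ y hy]

/-- Points of the same circle with the same clock reading coincide. -/
theorem Clock.eq_of_ex (h : Clock n N F O K A a G e) {y : N} (hy : y ∈ O) {s t : ℝ}
    (hst : a (A s y) = a (A t y)) : A s y = A t y := by
  rw [h.equi s y hy, h.equi t y hy] at hst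
  have ha : a y ≠ 0 := by
    intro h0
    have := h.norm y hy
    rw [h0, norm_zero] at this
    exact zero_ne_one this
  obtain ⟨k, hk⟩ := ex_eq_ex (mul_right_cancel₀ ha hst)
  have h1 : s = t + (k : ℝ) := by linarith
  rw [h1, h.flow.add _ _ y hy, h.int_apply k y hy]

theorem Clock.ne_zero (h : Clock n N F O K A a G e) {y : N} (hy : y ∈ O) : a y ≠ 0 := by
  intro h0
  have := h.norm y hy
  rw [h0, norm_zero] at this
  exact zero_ne_one this

theorem Clock.iter_mem (h : Clock n N F O K A a G e) (m : ℕ) : ∀ y ∈ K, (F^[e])^[m] y ∈ K := by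
  induction m with
  | zero => exact fun y hy => hy
  | succ m ih =>
    intro y hy
    rw [Function.iterate_succ_apply']
    exact h.inv _ (ih y hy)

theorem Clock.iter_circ (h : Clock n N F O K A a G e) (m : ℕ) :
    ∀ y ∈ K, ∀ t, ∃ s, (F^[e])^[m] (A t y) = A s ((F^[e])^[m] y) := by
  induction m with
  | zero => exact fun y hy t => ⟨t, rfl⟩
  | succ m ih =>
    intro y hy t
    obtain ⟨s, hs⟩ := ih y hy t
    obtain ⟨s', hs'⟩ := h.circ _ (h.iter_mem m y hy) s
    refine ⟨s', ?_⟩
    rw [Function.iterate_succ_apply', Function.iterate_succ_apply', hs, hs']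

theorem Clock.iter_fac (h : Clock n N F O K A a G e) (m : ℕ) :
    ∀ y ∈ K, ∀ x : ℝ, a y = ex x → a ((F^[e])^[m] y) = ex (G^[m] x) := by
  induction m with
  | zero => exact fun y hy x hx => hx
  | succ m ih =>
    intro y hy x hx
    rw [Function.iterate_succ_apply', Function.iterate_succ_apply']
    exact h.fac _ (h.iter_mem m y hy) _ (ih y hy x hx)

/-- every number of modulus one is `ex x` -/
theorem exists_ex (ζ : ℂ) (hζ : ‖ζ‖ = 1) : ∃ x : ℝ, ζ = ex x := by
  refine ⟨Complex.arg ζ / (2 * Real.pi), ?_⟩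
  rw [ex_eq]
  have h1 : 2 * Real.pi * (Complex.arg ζ / (2 * Real.pi)) = Complex.arg ζ := by
    have := Real.pi_ne_zero
    field_simp
  rw [h1]
  have h2 := Complex.norm_mul_exp_arg_mul_I ζ
  rw [hζ, Complex.ofReal_one, one_mul] at h2
  exact h2.symm

theorem ex_smooth : ContDiff ℝ ∞ ex := by
  have : ex = fun x : ℝ => Complex.exp (2 * Real.pi * Complex.I * (x : ℝ)) := rfl
  rw [this]
  exact Complex.contDiff_exp.comp (contDiff_const.mul Complex.ofRealCLM.contDiff)

end Pool.Agent.N102.CF
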