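import Pool.Agent.N102.CF.Stm

/-!
# Conjugation of a circle factor by a smooth diffeomorphism
-/

set_option autoImplicit false

open scoped Manifold ContDiff Topology
open Filter Set Metric

universe u

namespace Pool.Agent.N102.CF.CONJ

open Pool.Agent.H718R2.G Pool.Agent.W564.SC Pool.Agent.TH290.CL Pool.Agent.TH80.CLX
open Pool.Agent.N102.CF

theorem t_CONJ : Pool.Agent.N102.CF.S_CONJ := by
  intro n N _ _ _ Ψ F H hH O K A a G e hcl
  have hit : ∀ (i : ℕ) (y : N), H^[i] y = Ψ.symm (F^[i] (Ψ y)) := by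
    intro i y
    induction i with
    | zero => exact (Ψ.symm_apply_apply y).symm
    | succ i ih =>
      rw [Function.iterate_succ_apply', ih, hH, Ψ.apply_symm_apply,
        Function.iterate_succ_apply' F]
  have hitit : ∀ (m : ℕ) (y : N), (H^[e])^[m] y = Ψ.symm ((F^[e])^[m] (Ψ y)) := by
    intro m y
    rw [← Function.iterate_mul, ← Function.iterate_mul]
    exact hit _ y
  refine ⟨⟨⟨hcl.flow.isOpen.preimage Ψ.continuous, fun t y hy => ?_, ?_, fun y hy => ?_, fun s t y hy => ?_⟩,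
    fun y hy => ?_, ?_, fun y hy => hcl.norm _ hy, fun t y hy => ?_, fun y hy => hcl.sub hy, ?_, fun t y hy => ?_,
    hcl.pos, fun y hy => ?_, fun y hy i hi1 hi2 hcon => ?_, fun y hy t => ?_, fun y hy x hx => ?_, hcl.lift⟩,
    fun z hz W hW d hd => ?_⟩
  · show Ψ (Ψ.symm (A t (Ψ y))) ∈ O
    rw [Ψ.apply_symm_apply]
    exact hcl.flow.maps t _ hy
  · have h1 : ContMDiff (𝓘(ℝ, ℝ).prod (𝓡 n)) (𝓘(ℝ, ℝ).prod (𝓡 n)) ∞
        (fun p : ℝ × N => ((p.1, Ψ p.2) : ℝ × N)) :=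
      contMDiff_fst.prodMk (Ψ.contMDiff.comp contMDiff_snd)
    have h2 := hcl.flow.smooth.comp (f := fun p : ℝ × N => (p.1, Ψ p.2))
      (s := (univ : Set ℝ) ×ˢ (Ψ ⁻¹' O)) h1.contMDiffOn (fun p hp => ⟨mem_univ _, hp.2⟩)
    exact Ψ.symm.contMDiff.comp_contMDiffOn h2
  · show Ψ.symm (A 0 (Ψ y)) = y
    rw [hcl.flow.zero _ hy, Ψ.symm_apply_apply]
  · show Ψ.symm (A (s + t) (Ψ y)) = Ψ.symm (A s (Ψ (Ψ.symm (A t (Ψ y)))))
    rw [Ψ.apply_symm_apply, hcl.flow.add _ _ _ hy]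
  · show Ψ.symm (A 1 (Ψ y)) = y
    rw [hcl.per _ hy, Ψ.symm_apply_apply]
  · exact hcl.smooth.comp Ψ.contMDiff.contMDiffOn (fun p hp => hp)
  · show a (Ψ (Ψ.symm (A t (Ψ y)))) = ex t * a (Ψ y)
    rw [Ψ.apply_symm_apply, hcl.equi _ _ hy]
  · have h3 : Ψ ⁻¹' K = Ψ.symm '' K := by
      ext y
      constructor
      · intro hy
        exact ⟨Ψ y, hy, Ψ.symm_apply_apply y⟩
      · rintro ⟨w, hw, rfl⟩
        show Ψ (Ψ.symm w) ∈ K
        rw [Ψ.apply_symm_apply]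
        exact hw
    rw [h3]
    exact hcl.compact.image Ψ.symm.continuous
  · show Ψ (Ψ.symm (A t (Ψ y))) ∈ K
    rw [Ψ.apply_symm_apply]
    exact hcl.invA t _ hy
  · show Ψ (H^[e] y) ∈ K
    rw [hit, Ψ.apply_symm_apply]
    exact hcl.inv _ hy
  · have h4 : Ψ (H^[i] y) ∈ K := hcon
    rw [hit, Ψ.apply_symm_apply] at h4
    exact hcl.disj _ hy i hi1 hi2 h4
  · obtain ⟨s, hs⟩ := hcl.circ _ hy t
    refine ⟨s, ?_⟩
    show H^[e] (Ψ.symm (A t (Ψ y))) = Ψ.symm (A s (Ψ (H^[e] y)))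
    rw [hit, hit, Ψ.apply_symm_apply, Ψ.apply_symm_apply, hs]
  · show a (Ψ (H^[e] y)) = ex (G x)
    rw [hit, Ψ.apply_symm_apply]
    exact hcl.fac _ hy x hx
  · have hW' : Ψ.symm ⁻¹' W ∈ 𝓝 (Ψ z) := by
      apply Ψ.symm.continuous.continuousAt.preimage_mem_nhds
      rw [Ψ.symm_apply_apply]
      exact hW
    obtain ⟨m, hm1, hm2, w, hw1, hw2, s, hs⟩ := hz _ hW' d hd
    refine ⟨m, hm1, hm2, Ψ.symm w, hw1, ?_, s, ?_⟩
    · show Ψ (Ψ.symm w) ∈ K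
      rw [Ψ.apply_symm_apply]
      exact hw2
    · show Ψ.symm (A s (Ψ ((H^[e])^[m] (Ψ.symm w)))) ∈ W
      rw [hitit, Ψ.apply_symm_apply, Ψ.apply_symm_apply]
      exact hs

end Pool.Agent.N102.CF.CONJ
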