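import Pool.Agent.W564.SC.Defs
import Pool.Agent.TH80.CLX.LTC
import Pool.Agent.TH290.CL.Ex

/-!
# Circle factors: definitions

`V n = ℝⁿ`, `DiffM n N r = Diff^r(N)`, `ex x = exp(2πix)`, `LFlow n N O A`: `A` is a smooth action of
`ℝ` on the open set `O ⊆ N`.
-/

set_option autoImplicit false

open scoped Manifold ContDiff Topology
open Filter Set Metric

universe u

namespace Pool.Agent.N102.CF

open Pool.Agent.H718R2.G Pool.Agent.W564.SC Pool.Agent.TH290.CL Pool.Agent.TH80.CLX

/-- `G` is a lift to `ℝ` of an orientation preserving `C²` diffeomorphism of the circle `ℝ/ℤ`. -/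
structure IsLift (G : ℝ → ℝ) : Prop where
  smooth : ContDiff ℝ 2 G
  pos : ∀ x, 0 < deriv G x
  add_one : ∀ x, G (x + 1) = G x + 1

/-- The rotation number (translation number) of a lift: the limit of `G^n(0) / n`. -/
noncomputable def rho (G : ℝ → ℝ) : ℝ := limUnder atTop (fun n : ℕ => G^[n] 0 / n)

/-- The rotation number of the maps `x ↦ G (x + s)` is not constant for `s` in any neighbourhood of
`0`. (It is a nondecreasing function of `s`.) -/
def NotLocked (G : ℝ → ℝ) : Prop :=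
  ∀ ε : ℝ, 0 < ε → ∃ s t : ℝ, |s| < ε ∧ |t| < ε ∧
    rho (fun x => G (x + s)) ≠ rho (fun x => G (x + t))

/-- The compact set `K` is invariant under a free smooth circle action `A` (`t ∈ ℝ/ℤ`), which is
defined on an open set `O ⊇ K` and for which there is a smooth equivariant map `a : O → S¹` (so that
`O ≅ M × S¹` and `K ≅ L × S¹`), and `K` is periodic under `F` of period `e`: `F^e(K) ⊆ K`, and
`F^i(K)` does not meet `K` for `0 < i < e`. The map `F^e` maps the circles in `K` to circles (so that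
it induces a map of `L`, which is arbitrary) and covers the circle diffeomorphism `g` with the lift
`G`: `a (F^e y) = g (a y)`, `g (ex x) = ex (G x)`. Nothing is required of `F` outside of
`K, F(K), ..., F^(e-1)(K)`. -/
structure Clock (n : ℕ) (N : Type*) [TopologicalSpace N] [ChartedSpace (V n) N] (F : N → N)
    (O K : Set N) (A : ℝ → N → N) (a : N → ℂ) (G : ℝ → ℝ) (e : ℕ) : Prop where
  flow : LFlow n N O A
  per : ∀ y ∈ O, A 1 y = y
  smooth : ContMDiffOn (𝓡 n) 𝓘(ℝ, ℂ) ∞ a O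
  norm : ∀ y ∈ O, ‖a y‖ = 1
  equi : ∀ t, ∀ y ∈ O, a (A t y) = ex t * a y
  sub : K ⊆ O
  compact : IsCompact K
  invA : ∀ t, ∀ y ∈ K, A t y ∈ K
  pos : 1 ≤ e
  inv : ∀ y ∈ K, F^[e] y ∈ K
  disj : ∀ y ∈ K, ∀ i, 0 < i → i < e → F^[i] y ∉ K
  circ : ∀ y ∈ K, ∀ t, ∃ s, F^[e] (A t y) = A s (F^[e] y)
  fac : ∀ y ∈ K, ∀ x : ℝ, a y = ex x → a (F^[e] y) = ex (G x)
  lift : IsLift G

/-- The circle of `y` is nonwandering in `K` for the map `F^e` and all its powers: for every
neighbourhood `W` of `y` and every `d ≥ 1` there are a multiple `m ≥ 1` of `d` and a point `w ∈ W` of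
`K` such that the circle of `F^(e m)(w)` meets `W`. -/
def CircRec {N : Type*} [TopologicalSpace N] (F : N → N) (K : Set N) (A : ℝ → N → N) (e : ℕ)
    (y : N) : Prop :=
  ∀ W ∈ 𝓝 y, ∀ d : ℕ, 1 ≤ d → ∃ m : ℕ, 1 ≤ m ∧ d ∣ m ∧ ∃ w ∈ W, w ∈ K ∧
    ∃ s : ℝ, A s ((F^[e])^[m] w) ∈ W

/-- `y` lies in a compact set on which some iterate of `F` has a circle factor whose rotation number
is not locked, and its circle is nonwandering. -/
def IsClockPt (n : ℕ) (N : Type u) [TopologicalSpace N] [ChartedSpace (V n) N] (F : N → N)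
    (y : N) : Prop :=
  ∃ (O K : Set N) (A : ℝ → N → N) (a : N → ℂ) (G : ℝ → ℝ) (e : ℕ),
    Clock n N F O K A a G e ∧ NotLocked G ∧ y ∈ K ∧ CircRec F K A e y

end Pool.Agent.N102.CF
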