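import Pool.Agent.N102.CF.Stm

/-!
# Circle factors, part GAP (helper690): Denjoy-type distortion bound for the gaps of a periodic orbit
-/

set_option autoImplicit false

open Finset

namespace Pool.Agent.N102.CF.GAP

open Pool.Agent.N102.CF

section

variable {l L Λ : ℝ} {q m : ℕ} {B : ℝ → ℝ} {P p : ℤ} {w : ℤ → ℝ}

/-- the gap -/
def g (w : ℤ → ℝ) (v : ℤ) : ℝ := w (v + 1) - w v

/-- `q` consecutive gaps -/
def D (w : ℤ → ℝ) (q : ℕ) (v : ℤ) : ℝ := w (v + q) - w v

theorem D_eq (w : ℤ → ℝ) (q : ℕ) (v : ℤ) : D w q v = ∑ j ∈ range q, g w (v + j) := by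
  unfold D g
  induction q with
  | zero => simp
  | succ q ih =>
    rw [Finset.sum_range_succ, ← ih]
    push_cast
    rw [show v + ((q : ℤ) + 1) = v + q + 1 by ring]
    ring

theorem g_pos (hw : StrictMono w) (v : ℤ) : 0 < g w v := by
  have := hw (show v < v + 1 by omega)
  unfold g
  linarith

theorem D_nonneg (hw : StrictMono w) (q : ℕ) (v : ℤ) : 0 ≤ D w q v := by
  have := hw.monotone (show v ≤ v + q by omega)
  unfold D
  linarith

theorem w_per (hm : ∀ v, w (v + m) = w v + 1) (n : ℤ) : ∀ v, w (v + n * m) = w v + n := by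
  induction n using Int.induction_on with
  | zero => intro v; simp
  | succ n ih =>
    intro v
    rw [show v + ((n : ℤ) + 1) * m = (v + n * m) + m by ring, hm, ih]
    push_cast
    ring
  | pred n ih =>
    intro v
    have := hm (v + (-(n : ℤ) - 1) * m)
    rw [show v + (-(n : ℤ) - 1) * m + m = v + (-(n : ℤ)) * m by ring, ih] at this
    push_cast at this ⊢
    linarith

theorem g_congr (hm : ∀ v, w (v + m) = w v + 1) {a b : ℤ} (n : ℤ) (h : a = b + n * m) :
    g w a = g w b := by
  unfold g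
  rw [h, show b + n * m + 1 = (b + 1) + n * m by ring, w_per hm, w_per hm]
  ring

theorem D_congr (hm : ∀ v, w (v + m) = w v + 1) {a b : ℤ} (n : ℤ) (h : a = b + n * m) :
    D w q a = D w q b := by
  unfold D
  rw [h, show b + n * m + q = (b + q) + n * m by ring, w_per hm, w_per hm]
  ring

theorem sum_D (hm : ∀ v, w (v + m) = w v + 1) : ∑ v ∈ range m, D w q v = q := by
  have h1 : ∀ v ∈ range m, D w q (v : ℤ) = ∑ j ∈ range q, g w ((v : ℤ) + j) := fun v _ => D_eq w q v
  rw [Finset.sum_congr rfl h1, Finset.sum_comm]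
  have h2 : ∀ j ∈ range q, ∑ v ∈ range m, g w ((v : ℤ) + j) = 1 := by
    intro j _
    have h3 := Finset.sum_range_sub (fun v : ℕ => w ((v : ℤ) + j)) m
    have h4 : ∀ v ∈ range m, g w ((v : ℤ) + j) = w (((v + 1 : ℕ) : ℤ) + j) - w ((v : ℤ) + j) := by
      intro v _
      unfold g
      push_cast
      rw [show (v : ℤ) + j + 1 = (v : ℤ) + 1 + j by ring]
    rw [Finset.sum_congr rfl h4, h3]
    have h5 := hm j
    rw [add_comm] at h5
    simp only [Nat.cast_zero, zero_add]
    rw [h5]
    ring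
  rw [Finset.sum_congr rfl h2]
  simp

/-- (1) -/
theorem sum_DP (hm1 : 1 ≤ m) (hP : IsCoprime P (m : ℤ)) (hm : ∀ v, w (v + m) = w v + 1) :
    ∑ i ∈ range m, D w q ((i : ℤ) * P) = q := by
  have : NeZero m := ⟨by omega⟩
  obtain ⟨a, b, hab⟩ := hP
  have haP : (a : ZMod m) * (P : ZMod m) = 1 := by
    have : ((a * P + b * m : ℤ) : ZMod m) = ((1 : ℤ) : ZMod m) := by rw [hab]
    push_cast at this
    simpa using this
  let U : (ZMod m)ˣ := ⟨(P : ZMod m), (a : ZMod m), by rw [mul_comm]; exact haP, haP⟩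
  let F : ZMod m → ℝ := fun x => D w q (x.val : ℤ)
  have hF : ∀ v : ℤ, F (v : ZMod m) = D w q v := by
    intro v
    have h1 : (((((v : ZMod m)).val : ℕ) : ℤ) : ZMod m) = ((v : ℤ) : ZMod m) := by
      push_cast
      exact ZMod.natCast_zmod_val _
    rw [ZMod.intCast_eq_intCast_iff_dvd_sub] at h1
    obtain ⟨n, hn⟩ := h1
    exact D_congr hm (-n) (by linarith)
  have e1 : ∑ i ∈ range m, D w q ((i : ℤ) * P) = ∑ x : ZMod m, F (x * U) := by
    apply Finset.sum_nbij' (fun i : ℕ => (i : ZMod m)) (fun x : ZMod m => x.val)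
    · intro i _; exact Finset.mem_univ _
    · intro x _; exact Finset.mem_range.2 (ZMod.val_lt x)
    · intro i hi; exact ZMod.val_cast_of_lt (Finset.mem_range.1 hi)
    · intro x _; exact ZMod.natCast_zmod_val x
    · intro i _
      rw [← hF]
      congr 1
      push_cast
      rfl
  have e2 : ∑ i ∈ range m, D w q (i : ℤ) = ∑ x : ZMod m, F x := by
    apply Finset.sum_nbij' (fun i : ℕ => (i : ZMod m)) (fun x : ZMod m => x.val)
    · intro i _; exact Finset.mem_univ _
    · intro x _; exact Finset.mem_range.2 (ZMod.val_lt x)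
    · intro i hi; exact ZMod.val_cast_of_lt (Finset.mem_range.1 hi)
    · intro x _; exact ZMod.natCast_zmod_val x
    · intro i _
      rw [← hF]
      congr 1
      push_cast
      rfl
  rw [e1, ← sum_D (q := q) hm, e2]
  exact Equiv.sum_comp (Units.mulRight U) F

/-- (2), one step -/
theorem step (hB : Tame l L Λ B) (hw : StrictMono w) (hBw : ∀ v, B (w v) = w (v + P)) (v : ℤ)
    {j j' : ℕ} (hj : j < q) (hj' : j' < q) :
    g w (v + P + j) * g w (v + j') ≤ Real.exp (Λ * D w q v) * (g w (v + P + j') * g w (v + j)) := by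
  have h := hB.dist (w v) (w (v + q)) (w (v + j)) (w (v + j + 1)) (w (v + j')) (w (v + j' + 1))
    (hw.monotone (by omega)) (hw.monotone (by omega)) (hw.monotone (by omega))
    (hw.monotone (by omega)) (hw.monotone (by omega)) (hw.monotone (by omega))
  simp only [hBw] at h
  unfold g D
  rw [show v + P + (j : ℤ) + 1 = v + j + 1 + P by ring, show v + P + (j : ℤ) = v + j + P by ring,
    show v + P + (j' : ℤ) + 1 = v + j' + 1 + P by ring, show v + P + (j' : ℤ) = v + j' + P by ring]
  exact h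

/-- (2) -/
theorem iter (hB : Tame l L Λ B) (hw : StrictMono w) (hBw : ∀ v, B (w v) = w (v + P))
    {j j' : ℕ} (hj : j < q) (hj' : j' < q) (i : ℕ) :
    g w (i * P + j) * g w j' ≤
      Real.exp (Λ * ∑ k ∈ range i, D w q ((k : ℤ) * P)) * (g w (i * P + j') * g w j) := by
  induction i with
  | zero =>
    simp only [Nat.cast_zero, zero_mul, zero_add, Finset.range_zero, Finset.sum_empty, mul_zero,
      Real.exp_zero, one_mul]
    exact le_of_eq (mul_comm _ _)
  | succ i ih =>
    have h1 := step hB hw hBw ((i : ℤ) * P) hj hj'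
    rw [Finset.sum_range_succ, mul_add, Real.exp_add]
    push_cast
    rw [show ((i : ℤ) + 1) * P + j = i * P + P + j by ring,
      show ((i : ℤ) + 1) * P + j' = i * P + P + j' by ring]
    set E : ℝ := Real.exp (Λ * ∑ k ∈ range i, D w q ((k : ℤ) * P)) with hE
    set E' : ℝ := Real.exp (Λ * D w q ((i : ℤ) * P)) with hE'
    have hE0 : 0 < E := Real.exp_pos _
    have hE0' : 0 < E' := Real.exp_pos _
    have p1 := g_pos hw (i * P + j')
    have p2 := g_pos hw (j' : ℤ)
    have p3 := g_pos hw (i * P + P + j')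
    have h2 : g w (i * P + P + j) * g w j' * g w (i * P + j') ≤
        E * E' * (g w (i * P + P + j') * g w j) * g w (i * P + j') := by
      calc g w (i * P + P + j) * g w j' * g w (i * P + j')
          = (g w (i * P + P + j) * g w (i * P + j')) * g w j' := by ring
        _ ≤ (E' * (g w (i * P + P + j') * g w (i * P + j))) * g w j' :=
            mul_le_mul_of_nonneg_right h1 p2.le
        _ = E' * g w (i * P + P + j') * (g w (i * P + j) * g w j') := by ring
        _ ≤ E' * g w (i * P + P + j') * (E * (g w (i * P + j') * g w j)) :=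
            mul_le_mul_of_nonneg_left ih (by positivity)
        _ = _ := by ring
    exact le_of_mul_le_mul_right h2 p1

/-- (3) -/
theorem shift1 (hB : Tame l L Λ B) (hΛ : 0 ≤ Λ) (hw : StrictMono w) (hm1 : 1 ≤ m)
    (hP : IsCoprime P (m : ℤ)) (hm : ∀ v, w (v + m) = w v + 1) (hBw : ∀ v, B (w v) = w (v + P))
    {j j' : ℕ} (hj : j < q) (hj' : j' < q) :
    g w (j + 1) * g w j' ≤ Real.exp (Λ * q) * (g w (j' + 1) * g w j) := by
  have hs := sum_DP (q := q) hm1 hP hm
  obtain ⟨a, b, hab⟩ := hP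
  have hm0 : (0 : ℤ) < m := by exact_mod_cast hm1
  set u : ℕ := (a % m).toNat with hu
  have hu1 : (u : ℤ) = a % m := Int.toNat_of_nonneg (Int.emod_nonneg _ hm0.ne')
  have hu2 : u < m := by
    have := Int.emod_lt_of_pos a hm0
    omega
  have hu3 : ∃ n : ℤ, (u : ℤ) * P = 1 + n * m := by
    refine ⟨-(b + (a / m) * P), ?_⟩
    have h1 := Int.emod_add_mul_ediv a m
    have h2 : (u : ℤ) = a - m * (a / m) := by rw [hu1]; linarith
    rw [h2]
    linear_combination hab
  obtain ⟨n, hn⟩ := hu3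
  have h := iter hB hw hBw hj hj' u
  rw [g_congr hm n (show (u : ℤ) * P + j = (j + 1) + n * m by rw [hn]; ring),
    g_congr hm n (show (u : ℤ) * P + j' = (j' + 1) + n * m by rw [hn]; ring)] at h
  refine h.trans ?_
  have p1 := g_pos hw ((j' : ℤ) + 1)
  have p2 := g_pos hw (j : ℤ)
  apply mul_le_mul_of_nonneg_right _ (mul_pos p1 p2).le
  apply Real.exp_le_exp.2
  apply mul_le_mul_of_nonneg_left _ hΛ
  rw [← hs]
  apply Finset.sum_le_sum_of_subset_of_nonneg
  · intro i hi
    rw [Finset.mem_range] at hi ⊢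
    omega
  · intro i _ _
    exact D_nonneg hw q _

/-- iterates of `B` -/
theorem tame_iter (hB : Tame l L Λ B) (hl : 0 < l) (n : ℕ) : ∀ a b, a ≤ b →
    l ^ n * (b - a) ≤ B^[n] b - B^[n] a ∧ B^[n] b - B^[n] a ≤ L ^ n * (b - a) ∧
      B^[n] a ≤ B^[n] b := by
  intro a b hab
  induction n with
  | zero => simp [hab]
  | succ n ih =>
    obtain ⟨h1, h2, h3⟩ := ih
    rw [Function.iterate_succ_apply', Function.iterate_succ_apply']
    have e1 := hB.lower _ _ h3
    have e2 := hB.upper _ _ h3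
    have hba : 0 ≤ b - a := by linarith
    have hL : 0 ≤ L := by
      -- `l ≤ L` from the two bounds
      have e3 := hB.lower 0 1 (by norm_num)
      have e4 := hB.upper 0 1 (by norm_num)
      linarith
    refine ⟨?_, ?_, ?_⟩
    · calc l ^ (n + 1) * (b - a) = l * (l ^ n * (b - a)) := by ring
        _ ≤ l * (B^[n] b - B^[n] a) := mul_le_mul_of_nonneg_left h1 hl.le
        _ ≤ _ := e1
    · calc B (B^[n] b) - B (B^[n] a) ≤ L * (B^[n] b - B^[n] a) := e2
        _ ≤ L * (L ^ n * (b - a)) := mul_le_mul_of_nonneg_left h2 hL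
        _ = _ := by ring
    · have : 0 ≤ l * (B^[n] b - B^[n] a) := mul_nonneg hl.le (by linarith)
      linarith

theorem iter_w (hBw : ∀ v, B (w v) = w (v + P)) (n : ℕ) (v : ℤ) : B^[n] (w v) = w (v + n * P) := by
  induction n with
  | zero => simp
  | succ n ih =>
    rw [Function.iterate_succ_apply', ih, hBw]
    push_cast
    congr 1
    ring

/-- (4) -/
theorem gq (hB : Tame l L Λ B) (hl : 0 < l) (hw : StrictMono w) (hm : ∀ v, w (v + m) = w v + 1)
    (hBw : ∀ v, B (w v) = w (v + P)) (hq : (q : ℤ) * P = q + p * m) (v : ℤ) :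
    l ^ q * g w v ≤ g w (v + q) ∧ g w (v + q) ≤ L ^ q * g w v := by
  obtain ⟨h1, h2, -⟩ := tame_iter hB hl q (w v) (w (v + 1)) (hw.monotone (by omega))
  have e : ∀ v : ℤ, B^[q] (w v) = w (v + q) + p := by
    intro v
    rw [iter_w hBw, hq, show v + (q + p * m) = (v + q) + p * m by ring, w_per hm]
  rw [e, e] at h1 h2
  unfold g
  rw [show v + (q : ℤ) + 1 = v + 1 + q by ring]
  constructor <;> linarith

end

/-- **GAP.** -/
theorem t_GAP : Pool.Agent.N102.CF.S_GAP := by
  intro l L Λ d q hl hl1 hL1 hΛ hd hq1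
  set C1 : ℝ := Real.exp (Λ * q) with hC1
  have hC1p : 1 ≤ C1 := Real.one_le_exp (by positivity)
  set M1 : ℝ := C1 * (1 + L ^ q) with hM1
  set M2 : ℝ := C1 / l ^ q with hM2
  have hlq : 0 < l ^ q := by positivity
  have hlq1 : l ^ q ≤ 1 := pow_le_one₀ hl.le hl1
  have hLq1 : 1 ≤ L ^ q := one_le_pow₀ hL1
  have hM1p : 1 ≤ M1 := by
    rw [hM1]
    nlinarith
  have hM2p : 1 ≤ M2 := by
    rw [hM2, le_div_iff₀ hlq]
    linarith
  have hq0 : (0 : ℝ) < q := by exact_mod_cast hq1
  have hM1q : 0 < M1 ^ q := by positivity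
  have hM2q : 0 < M2 ^ q := by positivity
  refine ⟨min (d / (q * M1 ^ q)) (d / (q * M2 ^ q * L ^ q)), by positivity, ?_⟩
  intro B m P p w hB hB1 hm1 hP hqP hw hm hBw hdw
  have hD0 : d ≤ D w q 0 := by
    unfold D
    rw [zero_add]
    exact hdw
  have hDe : ∀ v, D w q v = ∑ j ∈ range q, g w (v + j) := D_eq w q
  have hgq := gq (q := q) (p := p) hB hl hw hm hBw hqP
  have p0 := g_pos hw 0
  have hD0p : 0 < D w q 0 := hd.trans_le hD0
  -- `g 0 ≤ D 0`
  have hg0 : g w 0 ≤ D w q 0 := by
    unfold g D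
    have := hw.monotone (show (0 : ℤ) + 1 ≤ 0 + q by omega)
    linarith
  have hD1 : D w q 1 = D w q 0 - g w 0 + g w q := by
    unfold g D
    rw [show (1 : ℤ) + q = (q : ℤ) + 1 by ring, zero_add, zero_add]
    ring
  obtain ⟨a1, a2⟩ := hgq 0
  rw [zero_add] at a1 a2
  have hD1l : l ^ q * D w q 0 ≤ D w q 1 := by
    rw [hD1]
    nlinarith
  have hD1u : D w q 1 ≤ (1 + L ^ q) * D w q 0 := by
    rw [hD1]
    nlinarith
  have hstep : ∀ j j' : ℕ, j < q → j' < q →
      g w (j + 1) * g w j' ≤ C1 * (g w (j' + 1) * g w j) := fun j j' hj hj' =>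
    shift1 hB hΛ hw hm1 hP hm hBw hj hj'
  have hD0s : D w q 0 = ∑ j ∈ range q, g w j := by
    rw [hDe]
    simp
  have hD1s : D w q 1 = ∑ j ∈ range q, g w (j + 1) := by
    rw [hDe]
    apply Finset.sum_congr rfl
    intro j _
    rw [add_comm]
  have up : ∀ j : ℕ, j < q → g w (j + 1) ≤ M1 * g w j := by
    intro j hj
    have h1 : g w (j + 1) * D w q 0 ≤ C1 * (D w q 1 * g w j) := by
      rw [hD0s, hD1s, Finset.mul_sum, Finset.sum_mul, Finset.mul_sum]
      apply Finset.sum_le_sum
      intro j' hj'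
      exact hstep j j' hj (Finset.mem_range.1 hj')
    have pj := g_pos hw (j : ℤ)
    have h2 : g w (j + 1) * D w q 0 ≤ M1 * g w j * D w q 0 := by
      refine h1.trans ?_
      calc C1 * (D w q 1 * g w j) ≤ C1 * ((1 + L ^ q) * D w q 0 * g w j) := by gcongr
        _ = M1 * g w j * D w q 0 := by rw [hM1]; ring
    exact le_of_mul_le_mul_right h2 hD0p
  have dn : ∀ j : ℕ, j < q → g w j ≤ M2 * g w (j + 1) := by
    intro j hj
    have h1 : D w q 1 * g w j ≤ C1 * (g w (j + 1) * D w q 0) := by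
      rw [hD0s, hD1s, Finset.sum_mul, Finset.mul_sum, Finset.mul_sum]
      apply Finset.sum_le_sum
      intro j' hj'
      exact hstep j' j (Finset.mem_range.1 hj') hj
    have pj := g_pos hw (j : ℤ)
    have h2 : g w j * (l ^ q * D w q 0) ≤ M2 * g w (j + 1) * (l ^ q * D w q 0) := by
      calc g w j * (l ^ q * D w q 0) ≤ g w j * D w q 1 := by gcongr
        _ = D w q 1 * g w j := by ring
        _ ≤ C1 * (g w (j + 1) * D w q 0) := h1
        _ = M2 * g w (j + 1) * (l ^ q * D w q 0) := by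
            rw [hM2]
            field_simp
    exact le_of_mul_le_mul_right h2 (by positivity)
  have up' : ∀ j : ℕ, j ≤ q → g w j ≤ M1 ^ j * g w 0 := by
    intro j
    induction j with
    | zero => intro _; simp
    | succ j ih =>
      intro hj
      have h1 := ih (by omega)
      have h2 := up j (by omega)
      push_cast
      calc g w (j + 1) ≤ M1 * g w j := h2
        _ ≤ M1 * (M1 ^ j * g w 0) := by gcongr
        _ = M1 ^ (j + 1) * g w 0 := by ring
  have dn' : ∀ k : ℕ, ∀ j : ℕ, j + k < q → g w j ≤ M2 ^ k * g w (j + k : ℕ) := by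
    intro k
    induction k with
    | zero => intro j _; simp
    | succ k ih =>
      intro j hj
      have h1 := ih j (by omega)
      have h2 := dn (j + k) (by omega)
      calc g w j ≤ M2 ^ k * g w (j + k : ℕ) := h1
        _ ≤ M2 ^ k * (M2 * g w ((j + k : ℕ) + 1)) := by gcongr
        _ = M2 ^ (k + 1) * g w (j + (k + 1) : ℕ) := by
            push_cast
            rw [show (j : ℤ) + (k + 1) = j + k + 1 by ring]
            ring
  constructor
  · -- `g 0`
    refine (min_le_left _ _).trans ?_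
    rw [div_le_iff₀ (by positivity)]
    have h1 : D w q 0 ≤ q * (M1 ^ q * g w 0) := by
      rw [hD0s]
      calc ∑ j ∈ range q, g w j ≤ ∑ _j ∈ range q, M1 ^ q * g w 0 := by
            apply Finset.sum_le_sum
            intro j hj
            have hj' := Finset.mem_range.1 hj
            refine (up' j hj'.le).trans ?_
            have : M1 ^ j ≤ M1 ^ q := pow_le_pow_right₀ hM1p hj'.le
            gcongr
        _ = q * (M1 ^ q * g w 0) := by rw [Finset.sum_const, Finset.card_range, nsmul_eq_mul]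
    have h2 : g w 0 = w 1 - w 0 := by unfold g; rw [zero_add]
    rw [h2] at h1
    nlinarith
  · refine (min_le_right _ _).trans ?_
    rw [div_le_iff₀ (by positivity)]
    have hq1' : ((q - 1 : ℕ) : ℤ) = q - 1 := by
      push_cast [hq1]
      ring
    have h1 : D w q 0 ≤ q * (M2 ^ q * g w (q - 1 : ℕ)) := by
      rw [hD0s]
      calc ∑ j ∈ range q, g w j ≤ ∑ _j ∈ range q, M2 ^ q * g w (q - 1 : ℕ) := by
            apply Finset.sum_le_sum
            intro j hj
            have hj' := Finset.mem_range.1 hj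
            have h3 := dn' (q - 1 - j) j (by omega)
            rw [show j + (q - 1 - j) = q - 1 by omega] at h3
            refine h3.trans ?_
            have p3 := g_pos hw ((q - 1 : ℕ) : ℤ)
            have : M2 ^ (q - 1 - j) ≤ M2 ^ q := pow_le_pow_right₀ hM2p (by omega)
            gcongr
        _ = q * (M2 ^ q * g w (q - 1 : ℕ)) := by
            rw [Finset.sum_const, Finset.card_range, nsmul_eq_mul]
    have h2 := (hgq (-1)).2
    rw [show (-1 : ℤ) + q = ((q - 1 : ℕ) : ℤ) by rw [hq1']; ring] at h2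
    have h3 : g w (-1) = w 0 - w (-1) := by unfold g; norm_num
    rw [h3] at h2
    calc d ≤ D w q 0 := hD0
      _ ≤ q * (M2 ^ q * g w (q - 1 : ℕ)) := h1
      _ ≤ q * (M2 ^ q * (L ^ q * (w 0 - w (-1)))) := by gcongr
      _ = (w 0 - w (-1)) * (q * M2 ^ q * L ^ q) := by ring

end Pool.Agent.N102.CF.GAP
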