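import Pool.Agent.N102.CF.Stm

/-!
# Circle factors: the choice of the rotation (task IVT)
-/

set_option autoImplicit false

open scoped Topology
open Filter Set

namespace Pool.Agent.N102.CF.IVT

variable {G : ℝ → ℝ}

theorem smono (hG : IsLift G) : StrictMono G := strictMono_of_deriv_pos hG.pos

theorem cont (hG : IsLift G) : Continuous G := hG.smooth.continuous

theorem add_int (hG : IsLift G) (x : ℝ) (m : ℤ) : G (x + m) = G x + m := by
  induction m using Int.induction_on with
  | zero => simp
  | succ i ih =>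
    have : x + ((i + 1 : ℤ) : ℝ) = (x + (i : ℤ)) + 1 := by push_cast; ring
    rw [this, hG.add_one, ih]; push_cast; ring
  | pred i ih =>
    have h := hG.add_one (x + ((-(i : ℤ) - 1 : ℤ) : ℝ))
    have : x + ((-(i : ℤ) - 1 : ℤ) : ℝ) + 1 = x + ((-(i : ℤ) : ℤ) : ℝ) := by push_cast; ring
    rw [this, ih] at h
    push_cast at h ⊢
    linarith

theorem iter_add_int (hG : IsLift G) (n : ℕ) (x : ℝ) (m : ℤ) : G^[n] (x + m) = G^[n] x + m := by
  induction n with
  | zero => rfl
  | succ n ih => rw [Function.iterate_succ_apply', ih, add_int hG, Function.iterate_succ_apply']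

theorem iter_mono (hG : IsLift G) (n : ℕ) : StrictMono G^[n] := (smono hG).iterate n

/-- the displacement of a rotation -/
theorem gap (hG : IsLift G) {t : ℝ} (ht : 0 < t) : ∃ η : ℝ, 0 < η ∧ ∀ x, G x + η ≤ G (x + t) := by
  have hc : Continuous fun x => G (x + t) - G x :=
    ((cont hG).comp (continuous_id.add continuous_const)).sub (cont hG)
  obtain ⟨x0, -, hx0⟩ := isCompact_Icc.exists_isMinOn (s := Icc (0:ℝ) 1) ⟨0, by simp⟩ hc.continuousOn
  refine ⟨G (x0 + t) - G x0, sub_pos.2 (smono hG (by linarith)), fun x => ?_⟩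
  have h1 : Int.fract x ∈ Icc (0:ℝ) 1 := ⟨Int.fract_nonneg x, (Int.fract_lt_one x).le⟩
  have h2 := hx0 h1
  simp only [mem_setOf_eq] at h2
  have h3 : x = Int.fract x + (⌊x⌋ : ℤ) := (Int.fract_add_floor x).symm
  have h4 : G x = G (Int.fract x) + ⌊x⌋ := by
    conv_lhs => rw [h3]
    exact add_int hG _ _
  have h5 : G (x + t) = G (Int.fract x + t) + ⌊x⌋ := by
    have : x + t = (Int.fract x + t) + (⌊x⌋ : ℤ) := by
      conv_lhs => rw [h3]
      ring
    rw [this]
    exact add_int hG _ _
  rw [h4, h5]
  have h6 : G (x0 + t) - G x0 ≤ G (Int.fract x + t) - G (Int.fract x) := h2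
  linarith

theorem rot_ge (hG : IsLift G) {t η : ℝ} (ht : 0 ≤ t) (h : ∀ x, G x + η ≤ G (x + t))
    (n : ℕ) (x : ℝ) :
    G^[n] x ≤ (fun x => G (x + t))^[n] x ∧ G^[n + 1] x + η ≤ (fun x => G (x + t))^[n + 1] x := by
  have key : G^[n] x ≤ (fun x => G (x + t))^[n] x := by
    induction n with
    | zero => exact le_rfl
    | succ n ih =>
      rw [Function.iterate_succ_apply', Function.iterate_succ_apply']
      refine (smono hG).monotone ?_
      linarith
  refine ⟨key, ?_⟩
  rw [Function.iterate_succ_apply', Function.iterate_succ_apply']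
  have := (smono hG).monotone key
  have h2 := h ((fun x => G (x + t))^[n] x)
  linarith

theorem rot_cont (hG : IsLift G) (n : ℕ) (y : ℝ) :
    Continuous fun t : ℝ => (fun x => G (x + t))^[n] y := by
  induction n with
  | zero => exact continuous_const
  | succ n ih =>
    simp_rw [Function.iterate_succ_apply']
    exact (cont hG).comp (ih.add continuous_id)

theorem t_IVT : Pool.Agent.N102.CF.S_IVT := by
  intro G hG q p hq hge ⟨c, hc⟩ y hy ε hε
  -- the upper bound without rotation
  have hup : ∀ k : ℕ, G^[k * q] y < y + (1 + k * p) := by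
    intro k
    have hc' : ∀ k : ℕ, G^[k * q] (c + (⌊y - c⌋ + 1 : ℤ)) = c + (⌊y - c⌋ + 1 : ℤ) + k * p := by
      intro k
      induction k with
      | zero => simp
      | succ k ih =>
        have e : (k + 1) * q = q + k * q := by ring
        rw [e, Function.iterate_add_apply, ih]
        have e2 : c + ((⌊y - c⌋ + 1 : ℤ) : ℝ) + k * p = c + ((⌊y - c⌋ + 1 + k * p : ℤ) : ℝ) := by
          push_cast; ring
        rw [e2, iter_add_int hG, hc]
        push_cast; ring
    have h1 : y < c + ((⌊y - c⌋ + 1 : ℤ) : ℝ) := by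
      have := Int.lt_floor_add_one (y - c)
      push_cast
      linarith
    have h2 : c + ((⌊y - c⌋ + 1 : ℤ) : ℝ) ≤ y + 1 := by
      have := Int.floor_le (y - c)
      push_cast
      linarith
    have h3 := iter_mono hG (k * q) h1
    rw [hc'] at h3
    linarith
  -- the lower bound with the rotation `t1`
  obtain ⟨η, hη, hgap⟩ := gap hG (half_pos hε)
  obtain ⟨q', rfl⟩ : ∃ q', q = q' + 1 := ⟨q - 1, by omega⟩
  have hB : ∀ x, x + p + η ≤ (fun x => G (x + ε / 2))^[q' + 1] x := by
    intro x
    have h1 := (rot_ge hG (half_pos hε).le hgap q' x).2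
    have h2 := hge x
    linarith
  have hlow : ∀ k : ℕ, y + k * (p + η) ≤ (fun x => G (x + ε / 2))^[k * (q' + 1)] y := by
    intro k
    induction k with
    | zero => simp
    | succ k ih =>
      have e : (k + 1) * (q' + 1) = (q' + 1) + k * (q' + 1) := by ring
      rw [e, Function.iterate_add_apply]
      have := hB ((fun x => G (x + ε / 2))^[k * (q' + 1)] y)
      push_cast
      linarith
  obtain ⟨k₀, hk₀⟩ := exists_nat_ge (1 / η)
  refine ⟨k₀, fun k hk => ?_⟩
  have hkη : 1 ≤ k * η := by
    have h1 : 1 / η ≤ k := hk₀.trans (by exact_mod_cast hk)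
    rwa [div_le_iff₀ hη] at h1
  have hivt := intermediate_value_Icc (half_pos hε).le
    (rot_cont hG (k * (q' + 1)) y).continuousOn
  have h0 : (fun x => G (x + 0))^[k * (q' + 1)] y < y + (1 + k * p) := by
    have : (fun x => G (x + 0)) = G := by funext x; rw [add_zero]
    rw [this]
    exact hup k
  have h1 : y + (1 + k * p) ≤ (fun x => G (x + ε / 2))^[k * (q' + 1)] y := by
    have := hlow k
    linarith
  obtain ⟨t, ht, hty⟩ := hivt ⟨h0.le, h1⟩
  refine ⟨t, ?_, ?_, hty⟩
  · rcases ht.1.eq_or_lt with h | h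
    · exfalso
      rw [← h] at hty
      exact absurd hty h0.ne
    · exact h
  · have := ht.2
    linarith

end Pool.Agent.N102.CF.IVT
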