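import Pool.Agent.N102.CF.Step

/-!
# Circle factors: limits
-/

set_option autoImplicit false
set_option linter.unusedSectionVars false

open scoped Manifold ContDiff Topology
open Filter Set Metric

universe u

namespace Pool.Agent.N102.CF.Lim

open Pool.Agent.H718R2.G Pool.Agent.W564.SC Pool.Agent.TH290.CL Pool.Agent.TH80.CLX
open Pool.Agent.N102.CF Pool.Agent.N102.CF.Step

variable {n : ℕ} {N : Type u} [TopologicalSpace N] [T2Space N] [CompactSpace N]
  [ChartedSpace (V n) N] [IsManifold (𝓡 n) ∞ N]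

/-- Closing at limits: a property `Q F z` which is invariant under conjugation and implies that `F`
can be closed at `z`. -/
theorem closable_of_lim (r : ℕ∞) (hr : 1 ≤ r) (Q : (N → N) → N → Prop)
    (hconj : ∀ (Ψ : DiffM n N ⊤) (F H : N → N), (∀ y, H y = Ψ.symm (F (Ψ y))) →
      ∀ z, Q F (Ψ z) → Q H z)
    (hQ : ∀ (F : DiffM n N r) (z : N), Q F z → Closable n N r F z)
    (F : DiffM n N r) (z : N)
    (h : ∀ U : Set (DiffM n N r), IsOpen[strongTop n N r] U → F ∈ U →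
      ∃ F' ∈ U, z ∈ closure {y | Q F' y}) : Closable n N r F z := by
  intro U hU hFU
  obtain ⟨F', hF'U, hz⟩ := h U hU hFU
  have hr' : (r : WithTop ℕ∞) ≤ ∞ := by exact_mod_cast le_top
  obtain ⟨χ, hχ⟩ := Pool.Agent.W699.SC.gc n N z
  obtain ⟨Ψ, κ, hκ, hΨ0, hΨs, hΨs', hΨt⟩ := Pool.Agent.W782.SC.psi n N ⊤ χ z hχ
  let T : V n → DiffM n N r := fun x =>
    { toEquiv := (Ψ x).toEquiv
      contMDiff_toFun := (Ψ x).contMDiff_toFun.of_le hr'
      contMDiff_invFun := (Ψ x).contMDiff_invFun.of_le hr' }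
  have hT : ∀ x y, T x y = Ψ x y := fun x y => rfl
  have hT' : ∀ x y, (T x).symm y = (Ψ x).symm y := fun x y => rfl
  obtain ⟨H, hH⟩ : ∃ H : V n → DiffM n N r, ∀ x y, H x y = (Ψ x).symm (F' (Ψ x y)) :=
    ⟨fun x => (T x).trans (F'.trans (T x).symm), fun x y => rfl⟩
  have hΨ0' : ∀ y, (Ψ 0).symm y = y := by
    intro y
    have := (Ψ 0).symm_apply_apply y
    rwa [hΨ0] at this
  have hH0 : H 0 = F' := by
    ext y
    rw [hH, hΨ0, hΨ0']
  have hfam : IsFam n N r H := by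
    intro y
    have e1 : (fun p : V n × N => H p.1 p.2) = fun p => (Ψ p.1).symm (F' (Ψ p.1 p.2)) := by
      funext p
      exact hH _ _
    rw [e1]
    have s1 : ContMDiff ((𝓡 n).prod (𝓡 n)) (𝓡 n) r (fun p : V n × N => Ψ p.1 p.2) :=
      hΨs.of_le hr'
    have s2 : ContMDiff ((𝓡 n).prod (𝓡 n)) (𝓡 n) r (fun p : V n × N => F' (Ψ p.1 p.2)) :=
      F'.contMDiff.comp s1
    have s3 : ContMDiff ((𝓡 n).prod (𝓡 n)) ((𝓡 n).prod (𝓡 n)) r
        (fun p : V n × N => ((p.1, F' (Ψ p.1 p.2)) : V n × N)) := contMDiff_fst.prodMk s2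
    have s4 : ContMDiff ((𝓡 n).prod (𝓡 n)) (𝓡 n) r (fun p : V n × N => (Ψ p.1).symm p.2) :=
      hΨs'.of_le hr'
    exact (s4.comp s3).contMDiffAt
  obtain ⟨κ', hκ', hmem⟩ := fam_mem r hr H hfam z U hU (by rw [hH0]; exact hF'U)
  have hW : {y : N | y ∈ χ.source ∧ ‖χ y‖ < min κ κ'} ∈ 𝓝 z := by
    have h5 : χ.source ∈ 𝓝 z := χ.open_source.mem_nhds hχ.src
    have h6 : ContinuousAt (fun y => ‖χ y‖) z := (χ.continuousAt hχ.src).norm
    have h7 : ∀ᶠ y in 𝓝 z, ‖χ y‖ < min κ κ' := by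
      have h8 : ‖χ z‖ < min κ κ' := by rw [hχ.zero, norm_zero]; exact lt_min hκ hκ'
      exact h6.eventually_lt_const h8
    filter_upwards [h5, h7] with y hy1 hy2
    exact ⟨hy1, hy2⟩
  obtain ⟨y, ⟨hy1, hy2⟩, hy3⟩ := mem_closure_iff_nhds.1 hz _ hW
  obtain ⟨h1, h2⟩ := hΨt (χ y) (hy2.trans_le (min_le_left _ _)) z hχ.src
    (by rw [hχ.zero, norm_zero]; norm_num)
  have h3 : Ψ (χ y) z = y := by
    apply χ.injOn h1 hy1
    rw [h2, hχ.zero, zero_add]
  have h4 : Q (H (χ y)) z := hconj (Ψ (χ y)) F' (H (χ y)) (hH _) z (by rw [h3]; exact hy3)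
  exact hQ (H (χ y)) z h4 U hU (hmem _ (hy2.trans_le (min_le_right _ _)))

/-- Closability is a closed condition on the diffeomorphism. -/
theorem closable_of_fam (r : ℕ∞) (hr : 1 ≤ r) (F : DiffM n N r) (z : N) (H : V 1 → DiffM n N r)
    (hH0 : H 0 = F) (hfam : IsFam n N r H)
    (h : ∀ κ : ℝ, 0 < κ → ∃ s : V 1, ‖s‖ < κ ∧ Closable n N r (H s) z) : Closable n N r F z := by
  intro U hU hFU
  obtain ⟨κ, hκ, hmem⟩ := fam_mem r hr H hfam z U hU (by rw [hH0]; exact hFU)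
  obtain ⟨s, hs, hc⟩ := h κ hκ
  exact hc U hU (hmem s hs)

/-- the property `QB`: the semistable periodic orbit of the clock does not contain `a y` -/
def QB (n : ℕ) (N : Type u) [TopologicalSpace N] [ChartedSpace (V n) N] (F : N → N)
    (y : N) : Prop :=
  ∃ (O K : Set N) (A : ℝ → N → N) (a : N → ℂ) (G : ℝ → ℝ) (e q : ℕ) (p : ℤ) (c x : ℝ),
    Clock n N F O K A a G e ∧ y ∈ K ∧ CircRec F K A e y ∧ 1 ≤ q ∧ (∀ u, u + p ≤ G^[q] u) ∧
    G^[q] c = c + p ∧ a y = ex x ∧ ∀ i < q, ex (G^[i] c) ≠ ex x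

/-- the property `QC` -/
def QC (n : ℕ) (N : Type u) [TopologicalSpace N] [ChartedSpace (V n) N] (F : N → N)
    (y : N) : Prop :=
  ∃ (O K : Set N) (A : ℝ → N → N) (a : N → ℂ) (G : ℝ → ℝ) (e q : ℕ) (p : ℤ) (c : ℝ),
    Clock n N F O K A a G e ∧ y ∈ K ∧ CircRec F K A e y ∧ 1 ≤ q ∧ (∀ u, u + p ≤ G^[q] u) ∧
    G^[q] c = c + p

/-- a smooth function which is zero on a finite set, nonnegative, and one at another point -/
theorem exists_bump (ζ : ℂ) (S : Set ℂ) (hS : S.Finite) (hζ : ζ ∉ S) :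
    ∃ γ : ℂ → ℝ, ContDiff ℝ ∞ γ ∧ (∀ w, 0 ≤ γ w) ∧ γ ζ = 1 ∧ ∀ w ∈ S, γ w = 0 := by
  have h1 : Sᶜ ∈ 𝓝 ζ := hS.isClosed.isOpen_compl.mem_nhds hζ
  obtain ⟨f, hf1, hf2, hf3, hf4, hf5⟩ : ∃ f : ℂ → ℝ, tsupport f ⊆ Sᶜ ∧ HasCompactSupport f ∧
      ContDiff ℝ ∞ f ∧ range f ⊆ Icc 0 1 ∧ f ζ = 1 := exists_contDiff_tsupport_subset h1
  refine ⟨f, hf3, fun w => (hf4 ⟨w, rfl⟩).1, hf5, fun w hw => ?_⟩
  by_contra h2
  exact hf1 (subset_tsupport f h2) hw

theorem closable_of_QB (hT1 : S_T1) (r : ℕ∞) (hr : 1 ≤ r) (F : DiffM n N r) (z : N)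
    (h : QB n N F z) : Closable n N r F z := by
  obtain ⟨O, K, A, a, G, e, q, p, c, x, hcl, hzK, hrec, hq, hGq, hGc, hax, hGx⟩ := h
  obtain ⟨γ, hγs, hγ0, hγ1, hγz⟩ := exists_bump (ex x) ((fun i : ℕ => ex (G^[i] c)) '' Iio q)
    ((finite_Iio q).image _) (by
      rintro ⟨i, hi, hix⟩
      exact hGx i hi hix)
  obtain ⟨H, κ, hκ, hH0, hfam, hH⟩ := Pert.pert r F hcl γ hγs
  apply closable_of_fam r hr F z H hH0 hfam
  intro κ' hκ'
  obtain ⟨t, ht0, ht1⟩ : ∃ t : ℝ, 0 < t ∧ t < min κ κ' := exists_between (lt_min hκ hκ')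
  obtain ⟨s, hs⟩ : ∃ s : V 1, s = EuclideanSpace.single 0 t := ⟨_, rfl⟩
  have hs0 : s 0 = t := by
    rw [hs]
    simp
  have hsn : ‖s‖ = t := by
    rw [Pert.norm_V1, hs0, abs_of_pos ht0]
  refine ⟨s, by rw [hsn]; exact ht1.trans_le (min_le_right _ _), ?_⟩
  obtain ⟨hcs, hcc⟩ := hH s (by rw [hsn]; exact ht1.trans_le (min_le_left _ _))
  rw [hs0] at hcs
  apply closable_of_goodPt hT1 r hr
  obtain ⟨B, hB⟩ : ∃ B : ℝ → ℝ, B = fun x => G (x + t * γ (ex x)) := ⟨_, rfl⟩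
  rw [← hB] at hcs
  have hGm : StrictMono G := strictMono_of_deriv_pos hcl.lift.pos
  have hGB : ∀ u, G u ≤ B u := by
    intro u
    rw [hB]
    apply hGm.monotone
    have := mul_nonneg ht0.le (hγ0 (ex u))
    linarith
  have hmono : ∀ (k : ℕ) (u : ℝ), G^[k] u ≤ B^[k] u := by
    intro k u
    induction k with
    | zero => exact le_rfl
    | succ k ih =>
      rw [Function.iterate_succ_apply', Function.iterate_succ_apply']
      exact (hGm.monotone ih).trans (hGB _)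
  refine ⟨O, K, A, a, B, e, q, p, c, x, hcs, hzK, Pert.circRec hcl hcc z hrec, hq,
    fun u => (hGq u).trans (hmono q u), ?_, hax, ?_⟩
  · have h1 : ∀ i : ℕ, i ≤ q → B^[i] c = G^[i] c := by
      intro i hi
      induction i with
      | zero => rfl
      | succ i ih =>
        rw [Function.iterate_succ_apply', Function.iterate_succ_apply', ih (by omega), hB]
        show G (G^[i] c + t * γ (ex (G^[i] c))) = _
        rw [hγz _ ⟨i, (by omega : i < q), rfl⟩, mul_zero, add_zero]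
    rw [h1 q le_rfl, hGc]
  · obtain ⟨k, rfl⟩ : ∃ k, q = k + 1 := ⟨q - 1, by omega⟩
    refine (hGq x).trans_lt ?_
    rw [Function.iterate_succ_apply, Function.iterate_succ_apply]
    have h1 : G x < B x := by
      rw [hB]
      apply hGm
      rw [hγ1, mul_one]
      linarith
    exact ((hGm.iterate k) h1).trans_le (hmono k _)

theorem closable_of_QC (hT1 : S_T1) (hC : S_CONJ.{u}) (r : ℕ∞) (hr : 1 ≤ r) (F : DiffM n N r)
    (z : N) (h : QC n N F z) : Closable n N r F z := by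
  apply closable_of_lim r hr (fun F y => QB n N F y) ?_ (closable_of_QB hT1 r hr) F z
  · intro U hU hFU
    refine ⟨F, hFU, ?_⟩
    obtain ⟨O, K, A, a, G, e, q, p, c, hcl, hzK, hrec, hq, hGq, hGc⟩ := h
    have hzO := hcl.sub hzK
    obtain ⟨x, hx⟩ := exists_ex (a z) (hcl.norm z hzO)
    rw [mem_closure_iff_nhds]
    intro W hW
    -- small shifts stay in `W`
    have h1 : ∀ᶠ t in 𝓝 (0 : ℝ), A t z ∈ W := by
      have h2 : ContinuousAt (fun t : ℝ => A t z) 0 := by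
        have h3 : ContinuousAt (fun q : ℝ × N => A q.1 q.2) (0, z) :=
          (hcl.flow.at _ z hzO).continuousAt
        exact ContinuousAt.comp (g := fun q : ℝ × N => A q.1 q.2) (f := fun t : ℝ => (t, z)) h3
          (continuousAt_id.prodMk continuousAt_const)
      apply h2.eventually
      show ∀ᶠ y in 𝓝 (A 0 z), y ∈ W
      rw [hcl.flow.zero z hzO]
      exact hW
    -- the bad shifts are countable
    have h2 : ({t : ℝ | ∀ i < q, ex (G^[i] c) ≠ ex (x + t)}ᶜ).Countable := by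
      have h3 : {t : ℝ | ∀ i < q, ex (G^[i] c) ≠ ex (x + t)}ᶜ ⊆
          range (fun p : ℕ × ℤ => G^[p.1] c - x - p.2) := by
        intro t ht
        simp only [mem_compl_iff, mem_setOf_eq, not_forall, not_not] at ht
        obtain ⟨i, hi, hit⟩ := ht
        obtain ⟨l, hl⟩ := ex_eq_ex hit
        exact ⟨(i, l), by
          show G^[i] c - x - l = t
          linarith⟩
      exact (countable_range _).mono h3
    have h3 : Dense {t : ℝ | ∀ i < q, ex (G^[i] c) ≠ ex (x + t)} := by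
      have := h2.dense_compl ℝ
      rwa [compl_compl] at this
    obtain ⟨t, ht1, ht2⟩ := h3.inter_nhds_nonempty h1
    refine ⟨A t z, ht2, O, K, A, a, G, e, q, p, c, x + t, hcl, hcl.invA t z hzK, ?_, hq, hGq, hGc,
      ?_, ht1⟩
    · -- the circle of the shifted point
      intro W' hW' d hd
      have h4 : {y : N | y ∈ O ∧ A t y ∈ W'} ∈ 𝓝 z := by
        have h5 : ContinuousAt (fun y : N => A t y) z := by
          have h6 : ContinuousAt (fun q : ℝ × N => A q.1 q.2) (t, z) :=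
            (hcl.flow.at _ z hzO).continuousAt
          exact ContinuousAt.comp (g := fun q : ℝ × N => A q.1 q.2) (f := fun y : N => (t, y)) h6
            (continuousAt_const.prodMk continuousAt_id)
        filter_upwards [hcl.flow.isOpen.mem_nhds hzO, h5.preimage_mem_nhds hW'] with y hy1 hy2
        exact ⟨hy1, hy2⟩
      obtain ⟨m, hm, hdm, w, hw, hwK, s, hs⟩ := hrec _ h4 d hd
      obtain ⟨s', hs'⟩ := hcl.iter_circ m w hwK t
      refine ⟨m, hm, hdm, A t w, hw.2, hcl.invA t w hwK, t + s - s', ?_⟩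
      have h5 := hcl.sub (hcl.iter_mem m w hwK)
      rw [hs', ← hcl.flow.add _ _ _ h5, sub_add_cancel, hcl.flow.add _ _ _ h5]
      exact hs.2
    · rw [hcl.equi _ z hzO, hx, ← ex_add, add_comm]
  · rintro Ψ F H hH z ⟨O, K, A, a, G, e, q, p, c, x, hcl, hzK, hrec, hq, hGq, hGc, hax, hGx⟩
    obtain ⟨h1, h2⟩ := hC n N Ψ F H hH O K A a G e hcl
    exact ⟨_, _, _, _, G, e, q, p, c, x, h1, hzK, h2 z hrec, hq, hGq, hGc, hax, hGx⟩

theorem closable_of_clockPt (hT1 : S_T1) (hT2 : S_T2) (hC : S_CONJ.{u}) (r : ℕ∞) (hr : 1 ≤ r)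
    (F : DiffM n N r) (z : N) (h : IsClockPt n N F z) : Closable n N r F z := by
  obtain ⟨O, K, A, a, G, e, hcl, hG, hzK, hrec⟩ := h
  obtain ⟨H, κ, hκ, hH0, hfam, hH⟩ := Pert.pert r F hcl (fun _ => 1) contDiff_const
  apply closable_of_fam r hr F z H hH0 hfam
  intro κ' hκ'
  obtain ⟨t, q, p, ht, hq, hGq, c, hGc⟩ := hT2 G hcl.lift hG (min κ κ') (lt_min hκ hκ')
  obtain ⟨s, hs⟩ : ∃ s : V 1, s = EuclideanSpace.single 0 t := ⟨_, rfl⟩
  have hs0 : s 0 = t := by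
    rw [hs]
    simp
  have hsn : ‖s‖ = |t| := by
    rw [Pert.norm_V1, hs0]
  refine ⟨s, by rw [hsn]; exact ht.trans_le (min_le_right _ _), ?_⟩
  obtain ⟨hcs, hcc⟩ := hH s (by rw [hsn]; exact ht.trans_le (min_le_left _ _))
  have hG' : (fun x => G (x + s 0 * (fun _ : ℂ => (1 : ℝ)) (ex x))) = fun x => G (x + t) := by
    funext x
    rw [hs0, mul_one]
  rw [hG'] at hcs
  exact closable_of_QC hT1 hC r hr (H s) z
    ⟨O, K, A, a, _, e, q, p, c, hcs, hzK, Pert.circRec hcl hcc z hrec, hq, hGq, hGc⟩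

theorem main (hT1 : S_T1) (hT2 : S_T2) (hC : S_CONJ.{u}) (r : ℕ∞) (hr : 1 ≤ r)
    (F : DiffM n N r) (z : N)
    (h : ∀ U : Set (DiffM n N r), IsOpen[strongTop n N r] U → F ∈ U →
      ∃ F' ∈ U, z ∈ closure {y | IsClockPt n N F' y}) : Closable n N r F z := by
  apply closable_of_lim r hr (fun F y => IsClockPt n N F y) ?_
    (closable_of_clockPt hT1 hT2 hC r hr) F z h
  rintro Ψ F H hH z ⟨O, K, A, a, G, e, hcl, hG, hzK, hrec⟩
  obtain ⟨h1, h2⟩ := hC n N Ψ F H hH O K A a G e hcl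
  exact ⟨_, _, _, _, G, e, h1, hG, hzK, h2 z hrec⟩

end Pool.Agent.N102.CF.Lim
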