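import Pool.Agent.N102.CF.Stm

/-!
# Circle factors: ORD, the orbit of a periodic point in its order on the line
-/

set_option autoImplicit false

namespace Pool.Agent.N102.CF.ORD

open Function

lemma iter_add_int (B : ℝ → ℝ) (h1 : ∀ x, B (x + 1) = B x + 1) (n : ℤ) (x : ℝ) :
    B (x + n) = B x + n := by
  induction n using Int.induction_on with
  | zero => simp
  | succ i ih =>
    have : x + ((i : ℤ) + 1 : ℤ) = (x + (i : ℤ)) + 1 := by push_cast; ring
    rw [this, h1, ih]; push_cast; ring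
  | pred i ih =>
    have h := h1 (x + ((-(i : ℤ) - 1 : ℤ) : ℝ))
    have h2 : x + ((-(i : ℤ) - 1 : ℤ) : ℝ) + 1 = x + ((-(i : ℤ) : ℤ) : ℝ) := by push_cast; ring
    rw [h2, ih] at h
    have : B (x + ((-(i : ℤ) - 1 : ℤ) : ℝ)) = B x + ((-(i : ℤ) : ℤ) : ℝ) - 1 := by linarith
    rw [this]; push_cast; ring

lemma iter_add (B : ℝ → ℝ) (h1 : ∀ x, B (x + 1) = B x + 1) (i : ℕ) (n : ℤ) (x : ℝ) :
    B^[i] (x + n) = B^[i] x + n := by
  induction i with
  | zero => simp
  | succ i ih => rw [iterate_succ_apply', iterate_succ_apply', ih, iter_add_int B h1]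

/-- the translate `T = B^i + n` -/
def T (B : ℝ → ℝ) (i : ℕ) (n : ℤ) (x : ℝ) : ℝ := B^[i] x + n

lemma T_iter (B : ℝ → ℝ) (h1 : ∀ x, B (x + 1) = B x + 1) (i : ℕ) (n : ℤ) (k : ℕ) (x : ℝ) :
    (T B i n)^[k] x = B^[i * k] x + k * n := by
  induction k with
  | zero => simp
  | succ k ih =>
    rw [iterate_succ_apply', ih]
    have e : B^[i * k] x + (k : ℝ) * n = B^[i * k] x + ((k * n : ℤ) : ℝ) := by push_cast; ring
    rw [e]
    unfold T
    rw [iter_add B h1, ← iterate_add_apply]
    have : i + i * k = i * (k + 1) := by ring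
    rw [this]; push_cast; ring

lemma B_iter_mul (B : ℝ → ℝ) (h1 : ∀ x, B (x + 1) = B x + 1) (m : ℕ) (P : ℤ) (y : ℝ)
    (hy : B^[m] y = y + P) (i : ℕ) : B^[i * m] y = y + i * P := by
  induction i with
  | zero => simp
  | succ i ih =>
    have : (i + 1) * m = m + i * m := by ring
    rw [this, iterate_add_apply, ih]
    have e : y + (i : ℝ) * P = y + ((i * P : ℤ) : ℝ) := by push_cast; ring
    rw [e, iter_add B h1, hy]; push_cast; ring

lemma T_mono (B : ℝ → ℝ) (hB : StrictMono B) (i : ℕ) (n : ℤ) : StrictMono (T B i n) := by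
  intro a b hab
  unfold T
  have := hB.iterate i hab
  linarith

lemma T_comm (B : ℝ → ℝ) (h1 : ∀ x, B (x + 1) = B x + 1) (i i' : ℕ) (n n' : ℤ) :
    Function.Commute (T B i n) (T B i' n') := by
  intro x
  unfold T
  rw [iter_add B h1, iter_add B h1, ← iterate_add_apply, ← iterate_add_apply, add_comm i i']
  ring

section
variable {B : ℝ → ℝ} {m : ℕ} {P : ℤ} {y : ℝ}

lemma T_y (h1 : ∀ x, B (x + 1) = B x + 1) (hy : B^[m] y = y + P) (i : ℕ) (n : ℤ) :
    (T B i n)^[m] y = y + ((i * P + n * m : ℤ) : ℝ) := by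
  rw [T_iter B h1, B_iter_mul B h1 m P y hy]; push_cast; ring

lemma crit_lt (hB : StrictMono B) (h1 : ∀ x, B (x + 1) = B x + 1) (hm : 1 ≤ m)
    (hy : B^[m] y = y + P) (i i' : ℕ) (n n' : ℤ) :
    B^[i] y + n < B^[i'] y + n' ↔ i * P + n * m < i' * P + n' * m := by
  have h := (T_comm B h1 i i' n n').iterate_pos_lt_iff_map_lt (T_mono B hB i n).monotone
    (T_mono B hB i' n') (x := y) (n := m) (by omega)
  rw [T_y h1 hy, T_y h1 hy] at h
  rw [show B^[i] y + n = T B i n y from rfl, show B^[i'] y + n' = T B i' n' y from rfl, ← h]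
  constructor
  · intro h; have : ((i * P + n * m : ℤ) : ℝ) < ((i' * P + n' * m : ℤ) : ℝ) := by linarith
    exact_mod_cast this
  · intro h; have : ((i * P + n * m : ℤ) : ℝ) < ((i' * P + n' * m : ℤ) : ℝ) := by exact_mod_cast h
    linarith

lemma crit_eq (hB : StrictMono B) (h1 : ∀ x, B (x + 1) = B x + 1) (hm : 1 ≤ m)
    (hy : B^[m] y = y + P) (i i' : ℕ) (n n' : ℤ) (h : i * P + n * m = i' * P + n' * m) :
    B^[i] y + n = B^[i'] y + n' := by
  apply le_antisymm
  · by_contra hc
    push Not at hc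
    rw [crit_lt hB h1 hm hy] at hc
    omega
  · by_contra hc
    push Not at hc
    rw [crit_lt hB h1 hm hy] at hc
    omega

end

theorem t_ORD : Pool.Agent.N102.CF.S_ORD := by
  intro B m P y hB h1 hm hcop hy
  have hex : ∀ v : ℤ, ∃ (i : ℕ) (n : ℤ), (i : ℤ) * P + n * m = v := by
    intro v
    obtain ⟨u, k, huk⟩ := hcop
    -- u * P + k * m = 1
    have hm0 : (m : ℤ) ≠ 0 := by omega
    have hmod := Int.emod_nonneg (v * u) hm0
    refine ⟨((v * u) % m).toNat, v * k + ((v * u) / m) * P, ?_⟩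
    rw [Int.toNat_of_nonneg hmod]
    have h := Int.emod_add_mul_ediv (v * u) m
    have e : (v * u) % m = v * u - m * ((v * u) / m) := by linarith
    rw [e]
    calc (v * u - m * ((v * u) / m)) * P + (v * k + ((v * u) / m) * P) * m
        = v * (u * P + k * m) := by ring
      _ = v := by rw [huk, mul_one]
  choose I J hIJ using hex
  have key : ∀ (i : ℕ) (n : ℤ), B^[i] y + n = B^[I (i * P + n * m)] y + J (i * P + n * m) := by
    intro i n
    exact crit_eq hB h1 hm hy _ _ _ _ (hIJ _).symm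
  refine ⟨fun v => B^[I v] y + J v, ?_, ?_, ?_, ?_, ?_⟩
  · intro a b hab
    show B^[I a] y + J a < B^[I b] y + J b
    rw [crit_lt hB h1 hm hy, hIJ, hIJ]
    exact hab
  · have := key 0 0
    simpa using this.symm
  · intro v
    show B^[I (v + m)] y + J (v + m) = B^[I v] y + J v + 1
    have := crit_eq hB h1 hm hy (I (v + m)) (I v) (J (v + m)) (J v + 1) (by
      rw [hIJ, add_mul, ← add_assoc, hIJ, one_mul])
    rw [this]; push_cast; ring
  · intro v
    show B (B^[I v] y + J v) = B^[I (v + P)] y + J (v + P)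
    rw [iter_add_int B h1, ← iterate_succ_apply' B]
    apply crit_eq hB h1 hm hy
    rw [hIJ]
    push_cast
    have := hIJ v
    linarith
  · intro i n
    exact key i n

end Pool.Agent.N102.CF.ORD
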