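import Pool.Agent.N102.CF.Stm
import Pool.Agent.TH290.CL.Rec

/-!
# Recurrent points have nonwandering circles for all powers
-/

set_option autoImplicit false

open scoped Manifold ContDiff Topology
open Filter Set Metric

universe u

namespace Pool.Agent.N102.CF.REC

open Pool.Agent.H718R2.G Pool.Agent.W564.SC Pool.Agent.TH290.CL Pool.Agent.TH80.CLX
open Pool.Agent.N102.CF

theorem t_REC : Pool.Agent.N102.CF.S_REC := by
  intro N _ F K A e he hF hFs hA z hz hrec W hW d hd
  have hed : 1 ≤ e * d := Nat.mul_pos he hd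
  rcases rec_cases F z hrec with h | h
  · obtain ⟨M, -, hM1, hM2, hM3, -⟩ := blocks (F : N → N) F.continuous z h W hW 0 (e * d) hed 1 one_pos 1
    obtain ⟨k, hk⟩ := hM2
    have hk0 : 1 ≤ k := by
      rcases Nat.eq_zero_or_pos k with h0 | h0
      · subst h0; simp at hk; omega
      · exact h0
    refine ⟨d * k, Nat.mul_pos hd hk0, dvd_mul_right _ _, z, mem_of_mem_nhds hW, hz, 0, ?_⟩
    have e1 : ((F : N → N)^[e])^[d * k] z = F^[M] z := by
      rw [← Function.iterate_mul, hk, mul_assoc]
    have hK : ∀ (j : ℕ), ∀ y ∈ K, ((F : N → N)^[e])^[j] y ∈ K := by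
      intro j
      induction j with
      | zero => intro y hy; exact hy
      | succ j ih => intro y hy; rw [Function.iterate_succ_apply]; exact ih _ (hF y hy)
    rw [hA _ (hK _ z hz), e1]
    exact hM3
  · obtain ⟨M, -, hM1, hM2, hM3, -⟩ :=
      blocks (F.symm : N → N) F.symm.continuous z h W hW 0 (e * d) hed 1 one_pos 1
    obtain ⟨k, hk⟩ := hM2
    have hk0 : 1 ≤ k := by
      rcases Nat.eq_zero_or_pos k with h0 | h0
      · subst h0; simp at hk; omega
      · exact h0
    have hK : ∀ (j : ℕ), ∀ y ∈ K, ((F.symm : N → N)^[e])^[j] y ∈ K := by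
      intro j
      induction j with
      | zero => intro y hy; exact hy
      | succ j ih => intro y hy; rw [Function.iterate_succ_apply]; exact ih _ (hFs y hy)
    have e1 : ((F.symm : N → N)^[e])^[d * k] z = F.symm^[M] z := by
      rw [← Function.iterate_mul, hk, mul_assoc]
    have e2 : ((F : N → N)^[e])^[d * k] (F.symm^[M] z) = z := by
      rw [← Function.iterate_mul, ← mul_assoc, ← hk]
      exact (Function.LeftInverse.iterate (fun y => F.apply_symm_apply y) M) z
    refine ⟨d * k, Nat.mul_pos hd hk0, dvd_mul_right _ _, F.symm^[M] z, hM3, ?_, 0, ?_⟩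
    · rw [← e1]; exact hK _ z hz
    · rw [e2, hA z hz]; exact mem_of_mem_nhds hW

end Pool.Agent.N102.CF.REC
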