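import Pool.Agent.N102.CF.Stm

/-!
# Circle factors: unfolding of semistable periodic orbits
-/

set_option autoImplicit false

open Filter Set Metric

namespace Pool.Agent.N102.CF.T1

open Pool.Agent.N102.CF

theorem lift_strictMono {G : ℝ → ℝ} (hG : IsLift G) : StrictMono G :=
  strictMono_of_deriv_pos hG.pos

theorem iter_add_int {B : ℝ → ℝ} (hB : ∀ x, B (x + 1) = B x + 1) (k : ℤ) :
    ∀ x, B (x + k) = B x + k := by
  have hn : ∀ m : ℕ, ∀ x, B (x + m) = B x + m := by
    intro m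
    induction m with
    | zero => intro x; simp
    | succ m ih =>
      intro x
      rw [Nat.cast_succ, ← add_assoc, hB, ih]
      ring
  intro x
  obtain ⟨m, rfl | rfl⟩ := Int.eq_nat_or_neg k
  · exact_mod_cast hn m x
  · have h1 := hn m (x + ((-(m : ℤ) : ℤ) : ℝ))
    push_cast at h1 ⊢
    rw [neg_add_cancel_right] at h1
    linarith

theorem lift_iter_add {G : ℝ → ℝ} (hG : ∀ x, G (x + 1) = G x + 1) (k : ℕ) :
    ∀ x, G^[k] (x + 1) = G^[k] x + 1 := by
  induction k with
  | zero => exact fun x => rfl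
  | succ k ih =>
    intro x
    rw [Function.iterate_succ_apply', ih, hG, Function.iterate_succ_apply']

/-- monotonicity in the map -/
theorem iter_mono {G B : ℝ → ℝ} (hG : Monotone G) (h : ∀ x, G x ≤ B x) (k : ℕ) (x : ℝ) :
    G^[k] x ≤ B^[k] x := by
  induction k with
  | zero => exact le_rfl
  | succ k ih =>
    rw [Function.iterate_succ_apply', Function.iterate_succ_apply']
    exact (hG ih).trans (h _)

theorem t_T1 (hO : S_ORD) (hT : S_TAME) (hGap : S_GAP) (hI : S_IVT) : S_T1 := by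
  intro G hG q p hq hA hc y hy ε hε
  obtain ⟨l, L, Λ, hl0, hl1, hL1, hΛ, htame⟩ := hT G hG
  obtain ⟨δ, hδ, hgap⟩ := hGap l L Λ (G^[q] y - p - y) q hl0 hl1 hL1 hΛ (by linarith) hq
  obtain ⟨k₀, hk₀⟩ := hI G hG q p hq hA hc y hy ε hε
  refine ⟨δ, max k₀ 1, hδ, fun k hk hqk => ?_⟩
  have hk1 : 1 ≤ k := (le_max_right _ _).trans hk
  obtain ⟨t, ht0, ht1, hty⟩ := hk₀ k ((le_max_left _ _).trans hk)
  refine ⟨t, ht0, ht1, hty, ?_⟩
  obtain ⟨B, hB⟩ : ∃ B : ℝ → ℝ, B = fun x => G (x + t) := ⟨_, rfl⟩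
  rw [← hB] at hty ⊢
  have hBm : StrictMono B := by
    rw [hB]
    exact fun x x' hx => lift_strictMono hG (by linarith)
  have hB1 : ∀ x, B (x + 1) = B x + 1 := by
    intro x
    rw [hB]
    show G (x + 1 + t) = G (x + t) + 1
    rw [← hG.add_one]
    congr 1
    ring
  have hBt : Tame l L Λ B := by
    rw [hB]
    refine ⟨fun a b hab => ?_, fun a b hab => ?_, fun x y a b c d h1 h2 h3 h4 h5 h6 => ?_⟩
    · have := htame.lower (a + t) (b + t) (by linarith)
      simpa using this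
    · have := htame.upper (a + t) (b + t) (by linarith)
      simpa using this
    · have := htame.dist (x + t) (y + t) (a + t) (b + t) (c + t) (d + t) (by linarith)
        (by linarith) (by linarith) (by linarith) (by linarith) (by linarith)
      simpa using this
  have hcop : IsCoprime (1 + (k : ℤ) * p) ((k * q : ℕ) : ℤ) := by
    have h1 : IsCoprime (1 + (k : ℤ) * p) (k : ℤ) := ⟨1, -p, by ring⟩
    have h2 : IsCoprime (1 + (k : ℤ) * p) (q : ℤ) :=
      h1.of_isCoprime_of_dvd_right (by exact_mod_cast hqk)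
    push_cast
    exact h1.mul_right h2
  have hm1 : 1 ≤ k * q := Nat.mul_pos hk1 hq
  obtain ⟨w, hw, hw0, hwm, hwB, hwi⟩ := hO B (k * q) (1 + (k : ℤ) * p) y hBm hB1 hm1 hcop (by
    rw [hty]
    push_cast
    ring)
  -- the gap of length `q`
  have hqw : w q = B^[q] y - p := by
    have h1 := hwi q (-p)
    have h2 : (q : ℤ) * (1 + (k : ℤ) * p) + -p * ((k * q : ℕ) : ℤ) = q := by
      push_cast
      ring
    rw [h2] at h1
    rw [← h1]
    push_cast
    ring
  have hmono : G^[q] y ≤ B^[q] y := by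
    apply iter_mono (lift_strictMono hG).monotone
    intro x
    rw [hB]
    exact (lift_strictMono hG).monotone (by linarith)
  obtain ⟨g1, g2⟩ := hgap B (k * q) (1 + (k : ℤ) * p) p w hBt hB1 hm1 hcop (by push_cast; ring) hw
    hwm hwB (by rw [hqw, hw0]; linarith)
  rw [hw0] at g1 g2
  intro i hi1 hi2 n
  have h1 := hwi i (-n)
  obtain ⟨v, hv⟩ : ∃ v : ℤ, v = (i : ℤ) * (1 + (k : ℤ) * p) + -n * ((k * q : ℕ) : ℤ) := ⟨_, rfl⟩
  rw [← hv] at h1
  have hv0 : v ≠ 0 := by
    intro h0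
    have h2 : (i : ℤ) * (1 + (k : ℤ) * p) = ((k * q : ℕ) : ℤ) * n := by
      rw [h0] at hv
      linarith
    have h3 : ((k * q : ℕ) : ℤ) ∣ i := hcop.symm.dvd_of_dvd_mul_right ⟨n, h2⟩
    have h4 : k * q ∣ i := by exact_mod_cast h3
    have := Nat.le_of_dvd hi1 h4
    omega
  have h2 : B^[i] y - y - n = w v - y := by
    rw [← h1]
    push_cast
    ring
  rw [h2]
  rcases lt_or_gt_of_ne hv0 with hv1 | hv1
  · have h3 : w v ≤ w (-1) := hw.monotone (by omega)
    rw [abs_sub_comm]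
    exact (by linarith : δ ≤ y - w v).trans (le_abs_self _)
  · have h3 : w 1 ≤ w v := hw.monotone (by omega)
    exact (by linarith : δ ≤ w v - y).trans (le_abs_self _)

end Pool.Agent.N102.CF.T1
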