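import Pool.Agent.N102.CF.Stm

/-!
# T2: small rotations of an unlocked circle diffeomorphism with a semistable periodic orbit
-/

set_option autoImplicit false

open scoped Topology
open Filter Set

namespace Pool.Agent.N102.CF.T2

open Pool.Agent.N102.CF

variable {G : ℝ → ℝ}

theorem mono (hG : IsLift G) : StrictMono G :=
  strictMono_of_deriv_pos hG.pos

theorem cont (hG : IsLift G) : Continuous G := hG.smooth.continuous

/-- the rotated map as a bundled lift -/
noncomputable def R (hG : IsLift G) (s : ℝ) : CircleDeg1Lift :=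
  ⟨⟨fun x => G (x + s), fun a b h => (mono hG).monotone (by simpa using h)⟩, fun x => by
    show G (x + 1 + s) = G (x + s) + 1
    rw [← hG.add_one]; congr 1; ring⟩

theorem coe_R (hG : IsLift G) (s : ℝ) : (R hG s : ℝ → ℝ) = fun x => G (x + s) := rfl

theorem coe_pow_R (hG : IsLift G) (s : ℝ) (q : ℕ) :
    ((R hG s ^ q : CircleDeg1Lift) : ℝ → ℝ) = (fun x => G (x + s))^[q] := by
  rw [CircleDeg1Lift.coe_pow, coe_R]

theorem rho_R (hG : IsLift G) (s : ℝ) :
    rho (fun x => G (x + s)) = (R hG s).translationNumber := by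
  unfold rho
  apply Tendsto.limUnder_eq
  have h := (R hG s).tendsto_translation_number₀
  refine h.congr fun n => ?_
  rw [coe_pow_R]

theorem R_mono (hG : IsLift G) {s t : ℝ} (h : s ≤ t) : R hG s ≤ R hG t := fun x =>
  (mono hG).monotone (by linarith)

theorem joint (hG : IsLift G) (q : ℕ) :
    Continuous fun z : ℝ × ℝ => (fun x => G (x + z.1))^[q] z.2 := by
  induction q with
  | zero => simpa using continuous_snd
  | succ q ih =>
    have : (fun z : ℝ × ℝ => (fun x => G (x + z.1))^[q + 1] z.2) =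
        fun z : ℝ × ℝ => G ((fun x => G (x + z.1))^[q] z.2 + z.1) := by
      funext z
      rw [Function.iterate_succ_apply']
    rw [this]
    exact (cont hG).comp (ih.add continuous_fst)

theorem main (hG : IsLift G) {s t : ℝ}
    (hτ : (R hG s).translationNumber < (R hG t).translationNumber) :
    ∃ (r : ℝ) (q : ℕ) (p : ℤ), s ≤ r ∧ r ≤ t ∧ 1 ≤ q ∧
      (∀ x, x + p ≤ (fun x => G (x + r))^[q] x) ∧ ∃ c, (fun x => G (x + r))^[q] c = c + p := by
  have hst : s < t := by
    by_contra h
    exact absurd (CircleDeg1Lift.translationNumber_mono (R_mono hG (not_lt.1 h))) (not_le.2 hτ)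
  obtain ⟨r, hr1, hr2⟩ := exists_rat_btwn hτ
  set q : ℕ := r.den with hq
  set p : ℤ := r.num with hp
  have hq0 : 0 < q := r.den_pos
  have hqR : (0 : ℝ) < q := by exact_mod_cast hq0
  have hr : (r : ℝ) = p / q := by
    rw [hp, hq]; exact Rat.cast_def r
  have h1 : ((R hG s) ^ q).translationNumber < (p : ℝ) := by
    rw [CircleDeg1Lift.translationNumber_pow]
    rw [hr, lt_div_iff₀ hqR] at hr1
    linarith
  have h2 : (p : ℝ) < ((R hG t) ^ q).translationNumber := by
    rw [CircleDeg1Lift.translationNumber_pow]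
    rw [hr, div_lt_iff₀ hqR] at hr2
    linarith
  have hs : ∀ x, (fun x => G (x + s))^[q] x < x + p := fun x => by
    have := CircleDeg1Lift.map_lt_of_translationNumber_lt_int _ h1 x
    rwa [coe_pow_R] at this
  have ht : ∀ x, x + p < (fun x => G (x + t))^[q] x := fun x => by
    have := CircleDeg1Lift.lt_map_of_int_lt_translationNumber _ h2 x
    rwa [coe_pow_R] at this
  let E : Set (ℝ × ℝ) := (Icc s t ×ˢ Icc (0 : ℝ) 1) ∩
    {z | (fun x => G (x + z.1))^[q] z.2 ≤ z.2 + p}
  have hE : IsCompact E := by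
    apply (isCompact_Icc.prod isCompact_Icc).inter_right
    exact isClosed_le (joint hG q) (continuous_snd.add continuous_const)
  let T : Set ℝ := Prod.fst '' E
  have hT : IsCompact T := hE.image continuous_fst
  have hTn : T.Nonempty := ⟨s, (s, 0), ⟨⟨⟨le_rfl, hst.le⟩, ⟨le_rfl, zero_le_one⟩⟩, (hs 0).le⟩, rfl⟩
  have hmem : sSup T ∈ T := hT.sSup_mem hTn
  obtain ⟨⟨t0, c⟩, ⟨⟨⟨ht0s, ht0t⟩, hc⟩, hcle⟩, ht0⟩ := hmem
  simp only at ht0s ht0t hc hcle ht0
  have hcle' : (fun x => G (x + t0))^[q] c ≤ c + p := hcle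
  have hlt : t0 < t := by
    rcases lt_or_eq_of_le ht0t with h | h
    · exact h
    · subst h
      exact absurd (ht c) (not_lt.2 hcle')
  have hge : ∀ x, x + p ≤ (fun x => G (x + t0))^[q] x := by
    have key : ∀ r' ∈ Ioc t0 t, ∀ x, x + p ≤ (fun x => G (x + r'))^[q] x := by
      intro r' hr' x
      have h3 : ∀ y ∈ Icc (0 : ℝ) 1, (p : ℝ) ≤ (R hG r' ^ q : CircleDeg1Lift) y - y := by
        intro y hy
        by_contra hcon
        push Not at hcon
        rw [coe_pow_R] at hcon
        have hmemT : r' ∈ T := ⟨(r', y), ⟨⟨⟨ht0s.trans hr'.1.le, hr'.2⟩, hy⟩, by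
          show (fun x => G (x + r'))^[q] y ≤ y + p
          linarith⟩, rfl⟩
        have := le_csSup hT.bddAbove hmemT
        rw [← ht0] at this
        exact absurd this (not_le.2 hr'.1)
      have h4 := (R hG r' ^ q).forall_map_sub_of_Icc (fun v => (p : ℝ) ≤ v) h3 x
      rw [coe_pow_R] at h4
      linarith
    intro x
    have hcl : IsClosed {r' : ℝ | x + p ≤ (fun y => G (y + r'))^[q] x} := by
      apply isClosed_le continuous_const
      exact (joint hG q).comp (continuous_id.prodMk continuous_const)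
    have hsub : Ioc t0 t ⊆ {r' : ℝ | x + p ≤ (fun y => G (y + r'))^[q] x} := fun r' hr' =>
      key r' hr' x
    have := closure_minimal hsub hcl
    rw [closure_Ioc hlt.ne] at this
    exact this ⟨le_rfl, hlt.le⟩
  exact ⟨t0, q, p, ht0s, ht0t, hq0, hge, c, le_antisymm hcle' (hge c)⟩

theorem t_T2 : S_T2 := by
  intro G hG hN ε hε
  obtain ⟨s, t, hs, ht, hne⟩ := hN ε hε
  rw [rho_R hG, rho_R hG] at hne
  rcases lt_or_gt_of_ne hne with h | h
  · obtain ⟨r, q, p, h1, h2, h3, h4, h5⟩ := main hG h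
    exact ⟨r, q, p, abs_lt.2 ⟨by have := (abs_lt.1 hs).1; linarith,
      by have := (abs_lt.1 ht).2; linarith⟩, h3, h4, h5⟩
  · obtain ⟨r, q, p, h1, h2, h3, h4, h5⟩ := main hG h
    exact ⟨r, q, p, abs_lt.2 ⟨by have := (abs_lt.1 ht).1; linarith,
      by have := (abs_lt.1 hs).2; linarith⟩, h3, h4, h5⟩

end Pool.Agent.N102.CF.T2
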