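import Pool.Agent.N102.CF.Stm

/-!
# Circle factors: T3, irrational rotation numbers are not locally constant
-/

set_option autoImplicit false

open Filter Topology

namespace Pool.Agent.N102.CF.T3

open Function

/-- the bundled lift `x ↦ G (x + t)` -/
def bun (G : ℝ → ℝ) (hG : IsLift G) (t : ℝ) : CircleDeg1Lift where
  toFun := fun x => G (x + t)
  monotone' := by
    have h : StrictMono G := strictMono_of_deriv_pos hG.pos
    intro a b hab
    exact h.monotone (by linarith)
  map_add_one' := by
    intro x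
    have : x + 1 + t = (x + t) + 1 := by ring
    show G (x + 1 + t) = G (x + t) + 1
    rw [this, hG.add_one]

lemma bun_apply (G : ℝ → ℝ) (hG : IsLift G) (t x : ℝ) : bun G hG t x = G (x + t) := rfl

lemma bun_coe (G : ℝ → ℝ) (hG : IsLift G) (t : ℝ) : ⇑(bun G hG t) = fun x => G (x + t) := rfl

lemma rho_bun (G : ℝ → ℝ) (hG : IsLift G) (t : ℝ) :
    rho (fun x => G (x + t)) = (bun G hG t).translationNumber := by
  unfold rho
  apply Tendsto.limUnder_eq
  have h := (bun G hG t).tendsto_translation_number₀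
  refine h.congr ?_
  intro n
  rw [CircleDeg1Lift.coe_pow, bun_coe]

lemma bun_cont (G : ℝ → ℝ) (hG : IsLift G) (t : ℝ) : Continuous (bun G hG t) := by
  rw [bun_coe]
  exact hG.smooth.continuous.comp (continuous_id.add continuous_const)

/-- multiples of an irrational number a little below an integer -/
lemma approx (α t : ℝ) (hα : Irrational α) (ht : 0 < t) :
    ∃ (n : ℕ) (m : ℤ), 1 ≤ n ∧ -t < n * α - m ∧ n * α - m < 0 := by
  obtain ⟨N, hN⟩ := exists_nat_gt (1 / min t 1)
  have hmin : 0 < min t 1 := lt_min ht one_pos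
  have hNpos : 0 < N := by
    have : (0 : ℝ) < N := lt_trans (by positivity) hN
    exact_mod_cast this
  obtain ⟨k, hk0, hkN, hk⟩ := Real.exists_nat_abs_mul_sub_round_le α hNpos
  have hlt : (1 : ℝ) / (N + 1) < min t 1 := by
    rw [div_lt_iff₀ (by positivity)]
    rw [div_lt_iff₀ hmin] at hN
    nlinarith
  set m' : ℤ := round (α * k) with hm'
  set η : ℝ := k * α - m' with hη
  have hkη : |η| < min t 1 := by
    refine lt_of_le_of_lt ?_ hlt
    have e : η = (k : ℝ) * α - m' := rfl
    rw [e]
    have : round ((k : ℝ) * α) = m' := by rw [hm', mul_comm]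
    rw [← this]
    exact hk
  have hη0 : η ≠ 0 := by
    intro h0
    have h1 : Irrational ((k : ℝ) * α) := hα.natCast_mul (by omega)
    apply h1
    refine ⟨m', ?_⟩
    have : (k : ℝ) * α = m' := by linarith
    rw [this]; simp
  rcases lt_or_gt_of_ne hη0 with hneg | hpos
  · refine ⟨k, m', by omega, ?_, by linarith⟩
    have := (abs_lt.mp (lt_of_lt_of_le hkη (min_le_left _ _))).1
    linarith
  · have hη1 : η < 1 := lt_of_le_of_lt (le_abs_self _) (lt_of_lt_of_le hkη (min_le_right _ _))
    have hηt : η < t := lt_of_le_of_lt (le_abs_self _) (lt_of_lt_of_le hkη (min_le_left _ _))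
    obtain ⟨j, hj⟩ : ∃ j : ℕ, ⌈1 / η⌉₊ = j + 1 := by
      have : 0 < ⌈1 / η⌉₊ := Nat.ceil_pos.mpr (by positivity)
      exact ⟨⌈1 / η⌉₊ - 1, by omega⟩
    have h1 : (1 : ℝ) / η ≤ j + 1 := by
      have := Nat.le_ceil (1 / η)
      rw [hj] at this; push_cast at this; exact this
    have h2 : (j : ℝ) < 1 / η := by
      have : j < ⌈1 / η⌉₊ := by omega
      exact Nat.lt_ceil.mp this
    have h1' : 1 ≤ ((j : ℝ) + 1) * η := by rwa [div_le_iff₀ hpos] at h1
    have h2' : (j : ℝ) * η < 1 := by rwa [lt_div_iff₀ hpos] at h2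
    have hj1 : 1 ≤ j := by
      by_contra hc
      have : j = 0 := by omega
      subst this
      simp at h1'
      linarith
    refine ⟨j * k, j * m' + 1, by nlinarith, ?_, ?_⟩
    · have e : ((j * k : ℕ) : ℝ) * α - ((j * m' + 1 : ℤ) : ℝ) = j * η - 1 := by
        push_cast; rw [hη]; ring
      rw [e]; nlinarith
    · have e : ((j * k : ℕ) : ℝ) * α - ((j * m' + 1 : ℤ) : ℝ) = j * η - 1 := by
        push_cast; rw [hη]; ring
      rw [e]; linarith

theorem t_T3 : Pool.Agent.N102.CF.S_T3 := by
  intro G hG hirr ε hε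
  have hirr' : Irrational (bun G hG 0).translationNumber := by
    rw [← rho_bun]
    simpa using hirr
  refine ⟨0, ε / 2, by simpa using hε, by rw [abs_of_pos (by linarith)]; linarith, ?_⟩
  rw [rho_bun G hG, rho_bun G hG]
  set f := bun G hG 0 with hf
  set B := bun G hG (ε / 2) with hB
  set t := ε / 2 with ht
  have htpos : 0 < t := by rw [ht]; linarith
  obtain ⟨n, m, hn, hm1, hm2⟩ := approx f.translationNumber t hirr' htpos
  obtain ⟨x, hx⟩ := (f ^ n).exists_eq_add_translationNumber (f.continuous_pow (bun_cont G hG 0) n)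
  rw [CircleDeg1Lift.translationNumber_pow] at hx
  have hfB : f ≤ B := by
    intro z
    show f z ≤ B z
    rw [hf, hB, bun_apply, bun_apply]
    exact (strictMono_of_deriv_pos hG.pos).monotone (by linarith)
  obtain ⟨k, rfl⟩ : ∃ k, n = k + 1 := ⟨n - 1, by omega⟩
  have h1 : (f ^ (k + 1)) x ≤ (B ^ (k + 1)) (x - t) := by
    rw [pow_succ, pow_succ, CircleDeg1Lift.mul_apply, CircleDeg1Lift.mul_apply]
    have e : B (x - t) = f x := by
      rw [hf, hB, bun_apply, bun_apply]
      congr 1; ring
    rw [e]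
    exact CircleDeg1Lift.pow_mono hfB k (f x)
  have h2 : (x - t) + m ≤ (B ^ (k + 1)) (x - t) := by
    refine le_trans ?_ h1
    rw [hx]; linarith
  have h3 := CircleDeg1Lift.le_translationNumber_of_add_int_le _ h2
  rw [CircleDeg1Lift.translationNumber_pow] at h3
  intro heq
  rw [heq] at hm2
  linarith

end Pool.Agent.N102.CF.T3
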