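import Pool.Agent.N102.CF.Stm

/-!
# Bounds and bounded distortion for lifts of `C²` circle diffeomorphisms
-/

set_option autoImplicit false

open scoped Manifold ContDiff Topology
open Filter Set Metric

universe u

namespace Pool.Agent.N102.CF.TAME

open Pool.Agent.N102.CF

/-- a continuous function of period `1` is bounded -/
theorem per_bdd {f : ℝ → ℝ} (hf : Continuous f) (hp : ∀ x, f (x + 1) = f x) :
    ∃ C : ℝ, ∀ x, |f x| ≤ C := by
  have hper : Function.Periodic f 1 := hp
  obtain ⟨C, hC⟩ := (isCompact_Icc (a := (0 : ℝ)) (b := 1)).exists_bound_of_continuousOn hf.continuousOn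
  refine ⟨C, fun x => ?_⟩
  obtain ⟨y, hy, hxy⟩ := hper.exists_mem_Ico₀ one_pos x
  rw [hxy]
  exact hC y ⟨hy.1, hy.2.le⟩

/-- a continuous positive function of period `1` is bounded below -/
theorem per_pos {f : ℝ → ℝ} (hf : Continuous f) (hp : ∀ x, f (x + 1) = f x) (h0 : ∀ x, 0 < f x) :
    ∃ c : ℝ, 0 < c ∧ ∀ x, c ≤ f x := by
  have hper : Function.Periodic f 1 := hp
  obtain ⟨z, hz, hmin⟩ := (isCompact_Icc (a := (0 : ℝ)) (b := 1)).exists_isMinOn
    (nonempty_Icc.2 zero_le_one) hf.continuousOn
  refine ⟨f z, h0 z, fun x => ?_⟩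
  obtain ⟨y, hy, hxy⟩ := hper.exists_mem_Ico₀ one_pos x
  rw [hxy]
  exact hmin ⟨hy.1, hy.2.le⟩

theorem t_TAME : Pool.Agent.N102.CF.S_TAME := by
  intro G hG
  have hd : Differentiable ℝ G := hG.smooth.differentiable (by norm_num)
  have hg1 : ContDiff ℝ 1 (deriv G) := by
    have h2 : ContDiff ℝ (1 + 1) G := by
      have := hG.smooth
      norm_num
      exact this
    exact (contDiff_succ_iff_deriv.1 h2).2.2
  have hgc : Continuous (deriv G) := hg1.continuous
  have hgp : ∀ x, deriv G (x + 1) = deriv G x := by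
    intro x
    have h1 : deriv (fun x => G (x + 1)) x = deriv G (x + 1) := deriv_comp_add_const _ _ _
    have h2 : (fun x => G (x + 1)) = fun x => G x + 1 := funext hG.add_one
    rw [h2, deriv_add_const] at h1
    exact h1.symm
  obtain ⟨c, hc, hc1⟩ := per_pos hgc hgp hG.pos
  obtain ⟨C, hC⟩ := per_bdd hgc hgp
  set h : ℝ → ℝ := fun x => Real.log (deriv G x) with hh
  have hh1 : ContDiff ℝ 1 h := hg1.log fun x => (hG.pos x).ne'
  have hhd : Differentiable ℝ h := hh1.differentiable (by norm_num)
  have hhc : Continuous (deriv h) := hh1.continuous_deriv le_rfl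
  have hhp : ∀ x, deriv h (x + 1) = deriv h x := by
    intro x
    have h1 : deriv (fun x => h (x + 1)) x = deriv h (x + 1) := deriv_comp_add_const _ _ _
    have h2 : (fun x => h (x + 1)) = h := by
      funext x
      simp only [hh, hgp]
    rw [h2] at h1
    exact h1.symm
  obtain ⟨Λ, hΛ⟩ := per_bdd hhc hhp
  have hΛ0 : 0 ≤ Λ := (abs_nonneg _).trans (hΛ 0)
  have hlip : ∀ x y, |h x - h y| ≤ Λ * |x - y| := by
    intro x y
    have := convex_univ.norm_image_sub_le_of_norm_deriv_le (f := h) (C := Λ) (s := univ)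
      (fun z _ => hhd z) (fun z _ => hΛ z) (mem_univ y) (mem_univ x)
    simpa [Real.norm_eq_abs] using this
  refine ⟨min c 1, max C 1, Λ, lt_min hc one_pos, min_le_right _ _, le_max_right _ _, hΛ0, ?_, ?_, ?_⟩
  · intro a b hab
    have h1 := mul_sub_le_image_sub_of_le_deriv hd hc1 hab
    have h2 : min c 1 * (b - a) ≤ c * (b - a) :=
      mul_le_mul_of_nonneg_right (min_le_left _ _) (by linarith)
    linarith
  · intro a b hab
    have h1 := image_sub_le_mul_sub_of_deriv_le hd (fun x => (le_abs_self _).trans (hC x)) hab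
    have h2 : C * (b - a) ≤ max C 1 * (b - a) :=
      mul_le_mul_of_nonneg_right (le_max_left _ _) (by linarith)
    linarith
  · intro x y a b c' d hxa hab hby hxc hcd hdy
    rcases hab.eq_or_lt with h1 | h1
    · subst h1; simp
    rcases hcd.eq_or_lt with h2 | h2
    · subst h2; simp
    obtain ⟨ξ, hξ, hξe⟩ := exists_deriv_eq_slope G h1 hd.continuous.continuousOn hd.differentiableOn
    obtain ⟨η, hη, hηe⟩ := exists_deriv_eq_slope G h2 hd.continuous.continuousOn hd.differentiableOn
    have e1 : G b - G a = deriv G ξ * (b - a) := by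
      rw [hξe, div_mul_cancel₀]
      linarith
    have e2 : G d - G c' = deriv G η * (d - c') := by
      rw [hηe, div_mul_cancel₀]
      linarith
    have h3 : h ξ - h η ≤ Λ * (y - x) := by
      have h4 := hlip ξ η
      have h5 : |ξ - η| ≤ y - x := by
        rw [abs_le]
        constructor <;> linarith [hξ.1, hξ.2, hη.1, hη.2]
      calc h ξ - h η ≤ |h ξ - h η| := le_abs_self _
        _ ≤ Λ * |ξ - η| := h4
        _ ≤ _ := mul_le_mul_of_nonneg_left h5 hΛ0
    have h6 : deriv G ξ ≤ Real.exp (Λ * (y - x)) * deriv G η := by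
      have h7 : deriv G ξ = Real.exp (h ξ) := (Real.exp_log (hG.pos ξ)).symm
      have h8 : deriv G η = Real.exp (h η) := (Real.exp_log (hG.pos η)).symm
      rw [h7, h8, ← Real.exp_add]
      exact Real.exp_le_exp.2 (by linarith)
    rw [e1, e2]
    have h9 : 0 ≤ (b - a) * (d - c') := mul_nonneg (by linarith) (by linarith)
    calc deriv G ξ * (b - a) * (d - c') = deriv G ξ * ((b - a) * (d - c')) := by ring
      _ ≤ Real.exp (Λ * (y - x)) * deriv G η * ((b - a) * (d - c')) := mul_le_mul_of_nonneg_right h6 h9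
      _ = _ := by ring

end Pool.Agent.N102.CF.TAME
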