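import Pool.Agent.N102.CF.Lim
import Pool.Agent.N102.CF.T1
import Pool.Agent.N102.CF.T2
import Pool.Agent.N102.CF.T3
import Pool.Agent.N102.CF.ORD
import Pool.Agent.N102.CF.TAME
import Pool.Agent.N102.CF.GAP
import Pool.Agent.N102.CF.IVT
import Pool.Agent.N102.CF.CONJ
import Pool.Agent.N102.CF.REC

/-!
# Circle factors: the closing lemma
-/

set_option autoImplicit false

open scoped Manifold ContDiff Topology
open Filter Set Metric

universe u

namespace Pool.Agent.N102.CF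

open Pool.Agent.H718R2.G Pool.Agent.W564.SC Pool.Agent.TH290.CL Pool.Agent.TH80.CLX

theorem t1 : S_T1 := T1.t_T1 ORD.t_ORD TAME.t_TAME GAP.t_GAP IVT.t_IVT

section

variable {n : ℕ} {N : Type u} [TopologicalSpace N] [T2Space N] [CompactSpace N]
  [ChartedSpace (V n) N] [IsManifold (𝓡 n) ∞ N]

theorem closable_of_clock (r : ℕ∞) (hr : 1 ≤ r) (F : DiffM n N r) (z : N)
    (h : ∀ U : Set (DiffM n N r), IsOpen[strongTop n N r] U → F ∈ U →
      ∃ F' ∈ U, z ∈ closure {y | IsClockPt n N F' y}) : Closable n N r F z :=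
  Lim.main t1 T2.t_T2 CONJ.t_CONJ r hr F z h

/-- Recurrent points in a compact set with a circle factor. -/
theorem clockPt_of_rec {F : N ≃ₜ N} {O K : Set N} {A : ℝ → N → N} {a : N → ℂ} {G : ℝ → ℝ} {e : ℕ}
    (h : Clock n N F O K A a G e) (hG : NotLocked G) (hK : ∀ y ∈ K, F.symm^[e] y ∈ K)
    {z : N} (hz : z ∈ K) (hrec : IsRec F z) : IsClockPt n N F z :=
  ⟨O, K, A, a, G, e, h, hG, hz, REC.t_REC N F K A e h.pos h.inv hK
    (fun y hy => h.flow.zero y (h.sub hy)) z hz hrec⟩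

end

end Pool.Agent.N102.CF
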