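import Pool.Agent.N102.CF.Defs

/-!
# Circle factors: the statements of the parts
-/

set_option autoImplicit false

open scoped Manifold ContDiff Topology
open Filter Set Metric

universe u

namespace Pool.Agent.N102.CF

open Pool.Agent.H718R2.G Pool.Agent.W564.SC Pool.Agent.TH290.CL Pool.Agent.TH80.CLX

/-! ### one-dimensional parts -/

/-- ORD: the orbit of a point with `B^m(y) = y + P`, `gcd(P, m) = 1`, in its order on the line. -/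
def S_ORD : Prop :=
  ∀ (B : ℝ → ℝ) (m : ℕ) (P : ℤ) (y : ℝ), StrictMono B → (∀ x, B (x + 1) = B x + 1) → 1 ≤ m →
    IsCoprime P (m : ℤ) → B^[m] y = y + P →
    ∃ w : ℤ → ℝ, StrictMono w ∧ w 0 = y ∧ (∀ v, w (v + m) = w v + 1) ∧ (∀ v, B (w v) = w (v + P)) ∧
      ∀ (i : ℕ) (n : ℤ), B^[i] y + n = w (i * P + n * m)

/-- Bounds for the difference quotients, and bounded distortion on intervals. -/
structure Tame (l L Λ : ℝ) (B : ℝ → ℝ) : Prop where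
  lower : ∀ a b, a ≤ b → l * (b - a) ≤ B b - B a
  upper : ∀ a b, a ≤ b → B b - B a ≤ L * (b - a)
  dist : ∀ x y a b c d, x ≤ a → a ≤ b → b ≤ y → x ≤ c → c ≤ d → d ≤ y →
    (B b - B a) * (d - c) ≤ Real.exp (Λ * (y - x)) * ((B d - B c) * (b - a))

/-- TAME -/
def S_TAME : Prop :=
  ∀ G : ℝ → ℝ, IsLift G → ∃ l L Λ : ℝ, 0 < l ∧ l ≤ 1 ∧ 1 ≤ L ∧ 0 ≤ Λ ∧ Tame l L Λ G

/-- GAP: the neighbours of `w 0` in the orbit are not too close, if `w q - w 0` is not small. -/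
def S_GAP : Prop :=
  ∀ (l L Λ d : ℝ) (q : ℕ), 0 < l → l ≤ 1 → 1 ≤ L → 0 ≤ Λ → 0 < d → 1 ≤ q → ∃ δ : ℝ, 0 < δ ∧
    ∀ (B : ℝ → ℝ) (m : ℕ) (P p : ℤ) (w : ℤ → ℝ), Tame l L Λ B → (∀ x, B (x + 1) = B x + 1) →
      1 ≤ m → IsCoprime P (m : ℤ) → q * P = q + p * m →
      StrictMono w → (∀ v, w (v + m) = w v + 1) → (∀ v, B (w v) = w (v + P)) →
      d ≤ w q - w 0 → δ ≤ w 1 - w 0 ∧ δ ≤ w 0 - w (-1)

/-- IVT: the choice of the rotation. -/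
def S_IVT : Prop :=
  ∀ G : ℝ → ℝ, IsLift G → ∀ (q : ℕ) (p : ℤ), 1 ≤ q → (∀ x, x + p ≤ G^[q] x) →
    (∃ c, G^[q] c = c + p) → ∀ y, y + p < G^[q] y → ∀ ε : ℝ, 0 < ε →
    ∃ k₀ : ℕ, ∀ k : ℕ, k₀ ≤ k → ∃ t : ℝ, 0 < t ∧ t < ε ∧
      (fun x => G (x + t))^[k * q] y = y + (1 + k * p)

/-- T1: unfolding of a semistable periodic orbit of a circle diffeomorphism (`A = G^q - p ≥ id` with a
fixed point, `A(y) > y`): for large multiples `k` of `q` the point `y` is periodic of period `k q` for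
some small rotation of `G`, and its orbit stays outside of a neighbourhood of `y` of size independent
of `k` until it closes up. -/
def S_T1 : Prop :=
  ∀ G : ℝ → ℝ, IsLift G → ∀ (q : ℕ) (p : ℤ), 1 ≤ q → (∀ x, x + p ≤ G^[q] x) →
    (∃ c, G^[q] c = c + p) → ∀ y, y + p < G^[q] y → ∀ ε : ℝ, 0 < ε →
    ∃ (δ : ℝ) (k₀ : ℕ), 0 < δ ∧ ∀ k : ℕ, k₀ ≤ k → q ∣ k → ∃ t : ℝ, 0 < t ∧ t < ε ∧
      (fun x => G (x + t))^[k * q] y = y + (1 + k * p) ∧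
      ∀ i, 0 < i → i < k * q → ∀ n : ℤ, δ ≤ |(fun x => G (x + t))^[i] y - y - n|

/-- T2: a circle diffeomorphism with a rotation number which is not locked has small rotations with a
semistable periodic orbit. -/
def S_T2 : Prop :=
  ∀ G : ℝ → ℝ, IsLift G → NotLocked G → ∀ ε : ℝ, 0 < ε → ∃ (t : ℝ) (q : ℕ) (p : ℤ),
    |t| < ε ∧ 1 ≤ q ∧ (∀ x, x + p ≤ (fun x => G (x + t))^[q] x) ∧
    ∃ c, (fun x => G (x + t))^[q] c = c + p

/-- T3: irrational rotation numbers are not locked. -/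
def S_T3 : Prop :=
  ∀ G : ℝ → ℝ, IsLift G → Irrational (rho G) → NotLocked G

/-! ### parts on manifolds -/

/-- PERT: perturbation along the circles. -/
def S_PERT : Prop :=
  ∀ (n : ℕ) (N : Type u) [TopologicalSpace N] [T2Space N] [CompactSpace N]
    [ChartedSpace (V n) N] [IsManifold (𝓡 n) ∞ N] (r : ℕ∞) (F : DiffM n N r) (O K : Set N)
    (A : ℝ → N → N) (a : N → ℂ) (G : ℝ → ℝ) (e : ℕ), Clock n N F O K A a G e →
    ∀ γ : ℂ → ℝ, ContDiff ℝ ∞ γ →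
    ∃ (H : V 1 → DiffM n N r) (κ : ℝ), 0 < κ ∧ H 0 = F ∧ IsFam n N r H ∧ ∀ s : V 1, ‖s‖ < κ →
      Clock n N (H s) O K A a (fun x => G (x + s 0 * γ (ex x))) e ∧
      ∀ y, CircRec F K A e y → CircRec (H s) K A e y

/-- CONJ: conjugation of a circle factor by a smooth diffeomorphism. -/
def S_CONJ : Prop :=
  ∀ (n : ℕ) (N : Type u) [TopologicalSpace N] [ChartedSpace (V n) N] [IsManifold (𝓡 n) ∞ N]
    (Ψ : DiffM n N ⊤) (F H : N → N), (∀ y, H y = Ψ.symm (F (Ψ y))) →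
    ∀ (O K : Set N) (A : ℝ → N → N) (a : N → ℂ) (G : ℝ → ℝ) (e : ℕ), Clock n N F O K A a G e →
      Clock n N H (Ψ ⁻¹' O) (Ψ ⁻¹' K) (fun t y => Ψ.symm (A t (Ψ y))) (fun y => a (Ψ y)) G e ∧
      ∀ z, CircRec F K A e (Ψ z) →
        CircRec H (Ψ ⁻¹' K) (fun t y => Ψ.symm (A t (Ψ y))) e z

/-- REC: recurrent points. -/
def S_REC : Prop :=
  ∀ (N : Type u) [TopologicalSpace N] (F : N ≃ₜ N) (K : Set N) (A : ℝ → N → N) (e : ℕ), 1 ≤ e →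
    (∀ y ∈ K, F^[e] y ∈ K) → (∀ y ∈ K, F.symm^[e] y ∈ K) → (∀ y ∈ K, A 0 y = y) →
    ∀ z ∈ K, IsRec F z → CircRec F K A e z

end Pool.Agent.N102.CF
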